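import Mathlib

set_option autoImplicit false

/-!
# Sequential random choices: product formulas
-/

open Finset Function

namespace Pool.Agent.Q179.DG

set_option linter.unusedSectionVars false

variable {Λ : Type} [Fintype Λ]

/-- the factor at `z` depends only on the choices up to `z` -/
def Ad {n : ℕ} (F : Fin n → (Fin n → Λ) → ℝ) : Prop :=
  ∀ z ω ω', (∀ y, y ≤ z → ω y = ω' y) → F z ω = F z ω'

/-- summation over the last choice -/
theorem sum_last {n : ℕ} (f : (Fin (n + 1) → Λ) → ℝ) :
    ∑ ω, f ω = ∑ ω' : Fin n → Λ, ∑ l : Λ, f (Fin.snoc ω' l) := by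
  rw [← (Fin.snocEquiv (fun _ : Fin (n + 1) => Λ)).sum_comp, Fintype.sum_prod_type,
    Finset.sum_comm]
  rfl

theorem snoc_agree {n : ℕ} (ω' : Fin n → Λ) (l l' : Λ) (z : Fin n) (y : Fin (n + 1))
    (hy : y ≤ z.castSucc) :
    (Fin.snoc ω' l : Fin (n + 1) → Λ) y = (Fin.snoc ω' l' : Fin (n + 1) → Λ) y := by
  have hlt : (y : ℕ) < n := lt_of_le_of_lt hy z.2
  obtain ⟨y', rfl⟩ : ∃ y' : Fin n, y = y'.castSucc := ⟨⟨y, hlt⟩, by ext; rfl⟩
  rw [Fin.snoc_castSucc, Fin.snoc_castSucc]

/-- restriction of the factors -/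
def res {n : ℕ} (F : Fin (n + 1) → (Fin (n + 1) → Λ) → ℝ) (l₀ : Λ) :
    Fin n → (Fin n → Λ) → ℝ := fun z ω' => F z.castSucc (Fin.snoc ω' l₀)

theorem res_ad {n : ℕ} {F : Fin (n + 1) → (Fin (n + 1) → Λ) → ℝ} (hA : Ad F) (l₀ : Λ) :
    Ad (res F l₀) := by
  intro z ω ω' h
  apply hA
  intro y hy
  have hlt : (y : ℕ) < n := lt_of_le_of_lt hy z.2
  obtain ⟨y', rfl⟩ : ∃ y' : Fin n, y = y'.castSucc := ⟨⟨y, hlt⟩, by ext; rfl⟩
  rw [Fin.snoc_castSucc, Fin.snoc_castSucc]
  exact h y' (by simpa using hy)

theorem res_sum {n : ℕ} {F : Fin (n + 1) → (Fin (n + 1) → Λ) → ℝ} (l₀ : Λ) (z : Fin n)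
    (ω' : Fin n → Λ) :
    ∑ l, res F l₀ z (update ω' z l) = ∑ l, F z.castSucc (update (Fin.snoc ω' l₀) z.castSucc l) := by
  apply Finset.sum_congr rfl
  intro l _
  unfold res
  rw [Fin.snoc_update]

theorem prod_split {n : ℕ} {F : Fin (n + 1) → (Fin (n + 1) → Λ) → ℝ} (hA : Ad F) (l₀ l : Λ)
    (ω' : Fin n → Λ) :
    ∏ z, F z (Fin.snoc ω' l) = (∏ z, res F l₀ z ω') * F (Fin.last n) (Fin.snoc ω' l) := by
  rw [Fin.prod_univ_castSucc]
  congr 1
  apply Finset.prod_congr rfl
  intro z _
  apply hA
  intro y hy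
  exact snoc_agree ω' l l₀ z y hy

theorem last_sum {n : ℕ} {F : Fin (n + 1) → (Fin (n + 1) → Λ) → ℝ} (l₀ : Λ)
    (ω' : Fin n → Λ) :
    ∑ l, F (Fin.last n) (Fin.snoc ω' l) =
      ∑ l, F (Fin.last n) (update (Fin.snoc ω' l₀) (Fin.last n) l) := by
  apply Finset.sum_congr rfl
  intro l _
  rw [Fin.update_snoc_last]

/-- product of supermartingale factors -/
theorem prod_le [Inhabited Λ] : ∀ {n : ℕ} (F : Fin n → (Fin n → Λ) → ℝ), Ad F → (∀ z ω, 0 ≤ F z ω) →
    (∀ z ω, ∑ l, F z (update ω z l) ≤ 1) → ∑ ω, ∏ z, F z ω ≤ 1 := by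
  intro n
  induction n with
  | zero =>
    intro F _ _ _
    simp
  | succ n ih =>
    intro F hA h0 h1
    rw [sum_last]
    have h2 : ∀ ω' : Fin n → Λ, ∑ l, ∏ z, F z (Fin.snoc ω' l) ≤ ∏ z, res F default z ω' := by
      intro ω'
      rw [Finset.sum_congr rfl fun l _ => prod_split hA default l ω', ← Finset.mul_sum,
        last_sum default ω']
      exact mul_le_of_le_one_right (Finset.prod_nonneg fun z _ => h0 _ _) (h1 _ _)
    refine (Finset.sum_le_sum fun ω' _ => h2 ω').trans (ih _ (res_ad hA _) (fun z ω => h0 _ _) ?_)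
    intro z ω
    rw [res_sum]
    exact h1 _ _

/-- product of probability kernels -/
theorem prod_eq [Inhabited Λ] : ∀ {n : ℕ} (F : Fin n → (Fin n → Λ) → ℝ), Ad F →
    (∀ z ω, ∑ l, F z (update ω z l) = 1) → ∑ ω, ∏ z, F z ω = 1 := by
  intro n
  induction n with
  | zero =>
    intro F _ _
    simp
  | succ n ih =>
    intro F hA h1
    rw [sum_last]
    have h2 : ∀ ω' : Fin n → Λ, ∑ l, ∏ z, F z (Fin.snoc ω' l) = ∏ z, res F default z ω' := by
      intro ω'
      rw [Finset.sum_congr rfl fun l _ => prod_split hA default l ω', ← Finset.mul_sum,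
        last_sum default ω', h1, mul_one]
    rw [Finset.sum_congr rfl fun ω' _ => h2 ω']
    apply ih _ (res_ad hA _)
    intro z ω
    rw [res_sum]
    exact h1 _ _

/-- tower property -/
theorem tower [Inhabited Λ] : ∀ {n : ℕ} (F : Fin n → (Fin n → Λ) → ℝ), Ad F →
    (∀ z ω, ∑ l, F z (update ω z l) = 1) → ∀ (x : Fin n) (g : (Fin n → Λ) → ℝ),
    (∀ ω ω', (∀ y, y ≤ x → ω y = ω' y) → g ω = g ω') →
    ∑ ω, (∏ z, F z ω) * g ω =
      ∑ ω, (∏ z, F z ω) * ∑ l, F x (update ω x l) * g (update ω x l) := by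
  intro n
  induction n with
  | zero =>
    intro F _ _ x
    exact x.elim0
  | succ n ih =>
    intro F hA h1 x g hg
    rw [sum_last, sum_last]
    have hone : ∀ ω' : Fin n → Λ, ∑ l, F (Fin.last n) (Fin.snoc ω' l) = 1 := by
      intro ω'
      rw [last_sum default ω', h1]
    rcases Fin.eq_castSucc_or_eq_last x with ⟨x', rfl⟩ | rfl
    · have hg' : ∀ (ω' : Fin n → Λ) (l : Λ), g (Fin.snoc ω' l) = g (Fin.snoc ω' default) := by
        intro ω' l
        apply hg
        intro y hy
        exact snoc_agree ω' l default x' y hy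
      have hF' : ∀ (ω' : Fin n → Λ) (l : Λ), F x'.castSucc (Fin.snoc ω' l) =
          res F default x' ω' := by
        intro ω' l
        apply hA
        intro y hy
        exact snoc_agree ω' l default x' y hy
      have hl : ∀ ω' : Fin n → Λ, ∑ l, (∏ z, F z (Fin.snoc ω' l)) * g (Fin.snoc ω' l) =
          (∏ z, res F default z ω') * g (Fin.snoc ω' default) := by
        intro ω'
        have : ∀ l, (∏ z, F z (Fin.snoc ω' l)) * g (Fin.snoc ω' l) =
            ((∏ z, res F default z ω') * g (Fin.snoc ω' default)) *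
              F (Fin.last n) (Fin.snoc ω' l) := by
          intro l
          rw [prod_split hA default l ω', hg' ω' l]
          ring
        rw [Finset.sum_congr rfl fun l _ => this l, ← Finset.mul_sum, hone, mul_one]
      have hr : ∀ ω' : Fin n → Λ, ∑ l, (∏ z, F z (Fin.snoc ω' l)) *
          ∑ l', F x'.castSucc (update (Fin.snoc ω' l) x'.castSucc l') *
            g (update (Fin.snoc ω' l) x'.castSucc l') =
          (∏ z, res F default z ω') * ∑ l', res F default x' (update ω' x' l') *
            g (Fin.snoc (update ω' x' l') default) := by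
        intro ω'
        have : ∀ l, (∏ z, F z (Fin.snoc ω' l)) *
            ∑ l', F x'.castSucc (update (Fin.snoc ω' l) x'.castSucc l') *
              g (update (Fin.snoc ω' l) x'.castSucc l') =
            ((∏ z, res F default z ω') * ∑ l', res F default x' (update ω' x' l') *
              g (Fin.snoc (update ω' x' l') default)) * F (Fin.last n) (Fin.snoc ω' l) := by
          intro l
          have e1 : ∑ l', F x'.castSucc (update (Fin.snoc ω' l) x'.castSucc l') *
              g (update (Fin.snoc ω' l) x'.castSucc l') =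
              ∑ l', res F default x' (update ω' x' l') *
                g (Fin.snoc (update ω' x' l') default) := by
            apply Finset.sum_congr rfl
            intro l' _
            rw [← Fin.snoc_update, hF', hg']
          rw [prod_split hA default l ω', e1]
          ring
        rw [Finset.sum_congr rfl fun l _ => this l, ← Finset.mul_sum, hone, mul_one]
      rw [Finset.sum_congr rfl fun ω' _ => hl ω', Finset.sum_congr rfl fun ω' _ => hr ω']
      apply ih (res F default) (res_ad hA _) _ x' (fun ω' => g (Fin.snoc ω' default))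
      · intro ω ω' h
        apply hg
        intro y hy
        have hlt : (y : ℕ) < n := lt_of_le_of_lt hy x'.2
        obtain ⟨y', rfl⟩ : ∃ y' : Fin n, y = y'.castSucc := ⟨⟨y, hlt⟩, by ext; rfl⟩
        rw [Fin.snoc_castSucc, Fin.snoc_castSucc]
        exact h y' (by simpa using hy)
      · intro z ω
        rw [res_sum]
        exact h1 _ _
    · apply Finset.sum_congr rfl
      intro ω' _
      have e1 : ∀ l : Λ, ∑ l', F (Fin.last n) (update (Fin.snoc ω' l) (Fin.last n) l') *
          g (update (Fin.snoc ω' l) (Fin.last n) l') =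
          ∑ l', F (Fin.last n) (Fin.snoc ω' l') * g (Fin.snoc ω' l') := by
        intro l
        apply Finset.sum_congr rfl
        intro l' _
        rw [Fin.update_snoc_last]
      have e2 : ∀ l, (∏ z, F z (Fin.snoc ω' l)) *
          ∑ l', F (Fin.last n) (update (Fin.snoc ω' l) (Fin.last n) l') *
            g (update (Fin.snoc ω' l) (Fin.last n) l') =
          ((∏ z, res F default z ω') * ∑ l', F (Fin.last n) (Fin.snoc ω' l') *
            g (Fin.snoc ω' l')) * F (Fin.last n) (Fin.snoc ω' l) := by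
        intro l
        rw [e1, prod_split hA default l ω']
        ring
      have e3 : ∀ l, (∏ z, F z (Fin.snoc ω' l)) * g (Fin.snoc ω' l) =
          (∏ z, res F default z ω') * (F (Fin.last n) (Fin.snoc ω' l) * g (Fin.snoc ω' l)) := by
        intro l
        rw [prod_split hA default l ω']
        ring
      rw [Finset.sum_congr rfl fun l _ => e2 l, Finset.sum_congr rfl fun l _ => e3 l,
        ← Finset.mul_sum, ← Finset.mul_sum, hone, mul_one]

end Pool.Agent.Q179.DG
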