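import Mathlib

set_option autoImplicit false
set_option linter.unusedSectionVars false

/-!
# The labels of one vertex
-/

open Finset Function
open scoped Classical

namespace Pool.Agent.Q179.DG

section one

variable {τ : Type} [Fintype τ] [DecidableEq τ]

theorem sum_lb (f : Option (Option τ) → ℝ) :
    ∑ l, f l = f none + (f (some none) + ∑ T, f (some (some T))) := by
  rw [Fintype.sum_option, Fintype.sum_option]

/-- Weights of the labels at one scale: low, fail, tuple. -/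
noncomputable def kk (ρ : ℝ) (g : τ → ℝ) : Option (Option τ) → ℝ
  | none => ρ - 1
  | some none => 1 - ∑ T, g T
  | some (some T) => g T

/-- Factor of a vertex of level `a` at scale `s`. -/
noncomputable def ff (ρ : ℝ) (g : τ → ℝ) (a s : ℕ) (S : Finset τ) (l : Option (Option τ)) : ℝ :=
  if a < s then (match l with
    | none => ρ / (ρ - 1)
    | some none => 0
    | some (some _) => 0)
  else if a = s then (match l with
    | none => 0
    | some none => 0
    | some (some T) => if T ∈ S then ρ / ∑ T ∈ S, g T else 0)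
  else 1

theorem kk_nonneg {ρ : ℝ} (hρ : 2 ≤ ρ) {g : τ → ℝ} (hg : ∀ T, 0 ≤ g T) (hg1 : ∑ T, g T ≤ 1)
    (l : Option (Option τ)) : 0 ≤ kk ρ g l := by
  match l with
  | none => show 0 ≤ ρ - 1; linarith
  | some none => show 0 ≤ 1 - ∑ T, g T; linarith
  | some (some T) => exact hg T

theorem kk_sum (ρ : ℝ) (g : τ → ℝ) : ∑ l, kk ρ g l = ρ := by
  rw [sum_lb]
  simp only [kk]
  ring

theorem ff_nonneg {ρ : ℝ} (hρ : 2 ≤ ρ) {g : τ → ℝ} (hg : ∀ T, 0 ≤ g T) (a s : ℕ) (S : Finset τ)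
    (l : Option (Option τ)) : 0 ≤ ff ρ g a s S l := by
  have h1 : 0 ≤ ρ / (ρ - 1) := div_nonneg (by linarith) (by linarith)
  have h2 : 0 ≤ ρ / ∑ T ∈ S, g T := div_nonneg (by linarith) (Finset.sum_nonneg fun T _ => hg T)
  unfold ff
  match l with
  | none => dsimp only; split_ifs <;> first | exact h1 | norm_num
  | some none => dsimp only; split_ifs <;> norm_num
  | some (some T) =>
    dsimp only
    split_ifs <;> first | exact h2 | norm_num

theorem sum_ite_S (S : Finset τ) (f : τ → ℝ) (c : ℝ) :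
    ∑ T, f T * (if T ∈ S then c else 0) = (∑ T ∈ S, f T) * c := by
  simp only [mul_ite, mul_zero]
  rw [Finset.sum_ite_mem, Finset.univ_inter, Finset.sum_mul]

theorem ff_mean {ρ : ℝ} (hρ : 2 ≤ ρ) {g : τ → ℝ} (a s : ℕ) (S : Finset τ)
    (hS : a = s → 0 < ∑ T ∈ S, g T) : ∑ l, kk ρ g l * ff ρ g a s S l = ρ := by
  have hne : ρ - 1 ≠ 0 := by linarith
  rw [sum_lb]
  unfold ff
  by_cases h1 : a < s
  · simp only [if_pos h1, kk, mul_zero, Finset.sum_const_zero, add_zero]
    field_simp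
  · by_cases h2 : a = s
    · simp only [if_neg h1, if_pos h2, kk, mul_zero, zero_add]
      rw [sum_ite_S]
      have := hS h2
      field_simp
    · simp only [if_neg h1, if_neg h2, mul_one, kk]
      ring

/-- pair factor at scale `s` -/
theorem ff_pair {ρ : ℝ} (hρ : 2 ≤ ρ) {g : τ → ℝ} (a b s : ℕ) (S S' : Finset τ)
    (hS : a = s → 0 < ∑ T ∈ S, g T) (hS' : b = s → 0 < ∑ T ∈ S', g T) :
    ∑ l, kk ρ g l * (ff ρ g a s S l * ff ρ g b s S' l) ≤
      (if max a b < s then ρ + 2 else if max a b = s then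
        (if a = b then ρ ^ 2 * (∑ T ∈ S ∩ S', g T) / ((∑ T ∈ S, g T) * ∑ T ∈ S', g T) else 0)
        else ρ) := by
  have hne : ρ - 1 ≠ 0 := by linarith
  rcases lt_trichotomy a s with ha | ha | ha
  · rcases lt_trichotomy b s with hb | hb | hb
    · rw [if_pos (max_lt ha hb), sum_lb]
      unfold ff
      simp only [if_pos ha, if_pos hb, kk, mul_zero, Finset.sum_const_zero, add_zero]
      have h1 : (ρ - 1) * (ρ / (ρ - 1) * (ρ / (ρ - 1))) = ρ ^ 2 / (ρ - 1) := by field_simp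
      rw [h1, div_le_iff₀ (by linarith)]
      nlinarith
    · have hmax : max a b = s := by rw [hb]; exact max_eq_right ha.le
      rw [if_neg (by rw [hmax]; exact lt_irrefl _), if_pos hmax, if_neg (by omega), sum_lb]
      unfold ff
      have hb' : ¬ b < s := by omega
      simp only [if_pos ha, if_neg hb', if_pos hb, kk, mul_zero, zero_mul, Finset.sum_const_zero,
        add_zero]
      exact le_rfl
    · have hmax : max a b = b := max_eq_right (by omega)
      rw [hmax, if_neg (by omega), if_neg (by omega)]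
      have e : ∀ l, ff ρ g b s S' l = 1 := by
        intro l
        unfold ff
        rw [if_neg (by omega), if_neg (by omega)]
      simp only [e, mul_one]
      exact (ff_mean hρ a s S hS).le
  · rcases lt_trichotomy b s with hb | hb | hb
    · have hmax : max a b = s := by rw [ha]; exact max_eq_left (by omega)
      rw [if_neg (by rw [hmax]; exact lt_irrefl _), if_pos hmax, if_neg (by omega), sum_lb]
      unfold ff
      have ha' : ¬ a < s := by omega
      simp only [if_pos hb, if_neg ha', if_pos ha, kk, mul_zero, zero_mul, Finset.sum_const_zero,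
        add_zero]
      exact le_rfl
    · have hmax : max a b = s := by rw [ha, hb]; exact max_self _
      rw [if_neg (by rw [hmax]; exact lt_irrefl _), if_pos hmax, if_pos (by omega), sum_lb]
      unfold ff
      have ha' : ¬ a < s := by omega
      have hb' : ¬ b < s := by omega
      simp only [if_neg ha', if_neg hb', if_pos ha, if_pos hb, kk, mul_zero, zero_add]
      have e : ∀ T, g T * ((if T ∈ S then ρ / ∑ T ∈ S, g T else 0) *
          (if T ∈ S' then ρ / ∑ T ∈ S', g T else 0)) =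
          g T * (if T ∈ S ∩ S' then ρ / (∑ T ∈ S, g T) * (ρ / ∑ T ∈ S', g T) else 0) := by
        intro T
        by_cases h1 : T ∈ S <;> by_cases h2 : T ∈ S' <;> simp [h1, h2]
      rw [Finset.sum_congr rfl fun T _ => e T, sum_ite_S]
      apply le_of_eq
      have h1 := hS ha
      have h2 := hS' hb
      field_simp
    · have hmax : max a b = b := max_eq_right (by omega)
      rw [hmax, if_neg (by omega), if_neg (by omega)]
      have e : ∀ l, ff ρ g b s S' l = 1 := by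
        intro l
        unfold ff
        rw [if_neg (by omega), if_neg (by omega)]
      simp only [e, mul_one]
      exact (ff_mean hρ a s S hS).le
  · have hmax : s < max a b := lt_max_of_lt_left ha
    rw [if_neg (by omega), if_neg (by omega)]
    have e : ∀ l, ff ρ g a s S l = 1 := by
      intro l
      unfold ff
      rw [if_neg (by omega), if_neg (by omega)]
    simp only [e, one_mul]
    exact (ff_mean hρ b s S' hS').le

end one

section lab

variable {R : ℕ} {τ : Fin R → Type} [∀ i, Fintype (τ i)] [∀ i, DecidableEq (τ i)]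

/-- The labels. -/
abbrev Lab (τ : Fin R → Type) := Option (Option ((i : Fin R) × Option (Option (τ i))))

theorem sum_lab (f : Lab τ → ℝ) :
    ∑ l, f l = f none + (f (some none) + ∑ i, ∑ l, f (some (some ⟨i, l⟩))) := by
  rw [Fintype.sum_option, Fintype.sum_option, Fintype.sum_sigma]

/-- The law of the label. -/
noncomputable def ker (m : ℝ) (ρ : ℕ → ℝ) (g : ∀ i, τ i → ℝ) : Lab τ → ℝ
  | none => 1 - m - m * ∑ i : Fin R, ρ i
  | some none => m
  | some (some ⟨i, l⟩) => m * kk (ρ i) (g i) l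

/-- The factor of a vertex. -/
noncomputable def fac (m : ℝ) (ρ : ℕ → ℝ) (g : ∀ i, τ i → ℝ) (a : ℕ) (S : ∀ i, Finset (τ i)) :
    Lab τ → ℝ
  | none => 1 / (1 - m)
  | some none => 0
  | some (some ⟨i, l⟩) => 1 / (1 - m) * ff (ρ i) (g i) a ((i : ℕ) + 1) (S i) l

theorem ker_sum (m : ℝ) (ρ : ℕ → ℝ) (g : ∀ i, τ i → ℝ) : ∑ l, ker m ρ g l = 1 := by
  rw [sum_lab]
  simp only [ker]
  have : ∑ i : Fin R, ∑ l, m * kk (ρ i) (g i) l = m * ∑ i : Fin R, ρ i := by
    rw [Finset.mul_sum]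
    apply Finset.sum_congr rfl
    intro i _
    rw [← Finset.mul_sum, kk_sum]
  rw [this]
  ring

theorem ker_nonneg {m : ℝ} (hm : 0 ≤ m) {ρ : ℕ → ℝ} (hρ : ∀ i, 2 ≤ ρ i)
    (hm1 : m * (1 + ∑ i : Fin R, ρ i) ≤ 1 / 2) {g : ∀ i, τ i → ℝ} (hg : ∀ i T, 0 ≤ g i T)
    (hg1 : 0 < m → ∀ i, ∑ T, g i T ≤ 1) (l : Lab τ) : 0 ≤ ker m ρ g l := by
  match l with
  | none => show 0 ≤ 1 - m - m * ∑ i : Fin R, ρ i; linarith
  | some none => exact hm
  | some (some ⟨i, l⟩) =>
    show 0 ≤ m * kk (ρ i) (g i) l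
    rcases hm.eq_or_lt with h | h
    · rw [← h, zero_mul]
    · exact mul_nonneg hm (kk_nonneg (hρ i) (hg i) (hg1 h i) l)

theorem fac_nonneg {m : ℝ} (hm1 : m ≤ 1 / 2) {ρ : ℕ → ℝ} (hρ : ∀ i, 2 ≤ ρ i)
    {g : ∀ i, τ i → ℝ} (hg : ∀ i T, 0 ≤ g i T) (a : ℕ) (S : ∀ i, Finset (τ i)) (l : Lab τ) :
    0 ≤ fac m ρ g a S l := by
  have h1 : 0 ≤ 1 / (1 - m) := div_nonneg zero_le_one (by linarith)
  match l with
  | none => exact h1
  | some none => exact le_rfl
  | some (some ⟨i, l⟩) => exact mul_nonneg h1 (ff_nonneg (hρ i) (hg i) _ _ _ _)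

theorem fac_mean {m : ℝ} (hm1 : m ≤ 1 / 2) {ρ : ℕ → ℝ} (hρ : ∀ i, 2 ≤ ρ i)
    {g : ∀ i, τ i → ℝ} (a : ℕ) (S : ∀ i, Finset (τ i))
    (hS : ∀ i : Fin R, a = (i : ℕ) + 1 → 0 < ∑ T ∈ S i, g i T) :
    ∑ l, ker m ρ g l * fac m ρ g a S l = 1 := by
  have h1 : (1 - m) ≠ 0 := by linarith
  rw [sum_lab]
  simp only [ker, fac, mul_zero, zero_add]
  have : ∀ i : Fin R, ∑ l, m * kk (ρ i) (g i) l *
      (1 / (1 - m) * ff (ρ i) (g i) a ((i : ℕ) + 1) (S i) l) = m / (1 - m) * ρ i := by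
    intro i
    rw [← ff_mean (hρ i) a ((i : ℕ) + 1) (S i) (hS i), Finset.mul_sum]
    apply Finset.sum_congr rfl
    intro l _
    rw [ff_mean (hρ i) a ((i : ℕ) + 1) (S i) (hS i)]
    ring
  rw [Finset.sum_congr rfl fun i _ => this i, ← Finset.mul_sum]
  field_simp
  ring

/-- The part of the pair exponent that comes from the levels. -/
noncomputable def dd (ρ : ℕ → ℝ) (g : ∀ i : Fin R, τ i → ℝ) (a b : ℕ)
    (S S' : ∀ i, Finset (τ i)) : ℝ :=
  ∑ i : Fin R, if max a b = (i : ℕ) + 1 then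
    (-ρ i + if a = b then 2 * (ρ i ^ 2 * (∑ T ∈ S i ∩ S' i, g i T) /
      ((∑ T ∈ S i, g i T) * ∑ T ∈ S' i, g i T)) else 0) else 0

theorem fac_pair {m : ℝ} (hm : 0 ≤ m) (hm1 : m ≤ 1 / 2) {ρ : ℕ → ℝ} (hρ : ∀ i, 2 ≤ ρ i)
    {g : ∀ i, τ i → ℝ} (hg : ∀ i T, 0 ≤ g i T) (a b : ℕ) (S S' : ∀ i, Finset (τ i))
    (hS : ∀ i : Fin R, a = (i : ℕ) + 1 → 0 < ∑ T ∈ S i, g i T)
    (hS' : ∀ i : Fin R, b = (i : ℕ) + 1 → 0 < ∑ T ∈ S' i, g i T) :
    ∑ l, ker m ρ g l * (fac m ρ g a S l * fac m ρ g b S' l) ≤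
      Real.exp (m * (2 + 4 * R + dd ρ g a b S S')) := by
  have h0 : 0 < 1 - m := by linarith
  -- the sum over the scales
  set γ : Fin R → ℝ := fun i => if a = b then ρ i ^ 2 * (∑ T ∈ S i ∩ S' i, g i T) /
      ((∑ T ∈ S i, g i T) * ∑ T ∈ S' i, g i T) else 0 with hγ
  have hγ0 : ∀ i, 0 ≤ γ i := by
    intro i
    simp only [hγ]
    split_ifs
    · apply div_nonneg
      · exact mul_nonneg (sq_nonneg _) (Finset.sum_nonneg fun T _ => hg i T)
      · exact mul_nonneg (Finset.sum_nonneg fun T _ => hg i T)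
          (Finset.sum_nonneg fun T _ => hg i T)
    · exact le_rfl
  have hp : ∀ i : Fin R, ∑ l, kk (ρ i) (g i) l * (ff (ρ i) (g i) a ((i : ℕ) + 1) (S i) l *
      ff (ρ i) (g i) b ((i : ℕ) + 1) (S' i) l) ≤
      ρ i + 2 + if max a b = (i : ℕ) + 1 then (-ρ i + γ i) else 0 := by
    intro i
    refine (ff_pair (hρ i) a b ((i : ℕ) + 1) (S i) (S' i) (hS i) (hS' i)).trans ?_
    by_cases c1 : max a b < (i : ℕ) + 1
    · rw [if_pos c1, if_neg (by omega)]
      linarith
    · rw [if_neg c1]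
      by_cases c2 : max a b = (i : ℕ) + 1
      · rw [if_pos c2, if_pos c2]
        simp only [hγ]
        linarith
      · rw [if_neg c2, if_neg c2]
        linarith
  set u : ℝ := ∑ i : Fin R, if max a b = (i : ℕ) + 1 then ρ i else 0 with hu
  set v : ℝ := ∑ i : Fin R, if max a b = (i : ℕ) + 1 then γ i else 0 with hv
  have hu0 : 0 ≤ u := Finset.sum_nonneg fun i _ => by
    split_ifs
    · linarith [hρ i]
    · exact le_rfl
  have hv0 : 0 ≤ v := Finset.sum_nonneg fun i _ => by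
    split_ifs
    · exact hγ0 i
    · exact le_rfl
  have hdd : dd ρ g a b S S' = -u + 2 * v := by
    unfold dd
    rw [hu, hv, Finset.mul_sum, ← Finset.sum_neg_distrib, ← Finset.sum_add_distrib]
    apply Finset.sum_congr rfl
    intro i _
    simp only [hγ]
    split_ifs <;> ring
  have hsum : ∑ i : Fin R, ∑ l, kk (ρ i) (g i) l * (ff (ρ i) (g i) a ((i : ℕ) + 1) (S i) l *
      ff (ρ i) (g i) b ((i : ℕ) + 1) (S' i) l) ≤ (∑ i : Fin R, ρ i) + 2 * R - u + v := by
    refine (Finset.sum_le_sum fun i _ => hp i).trans (le_of_eq ?_)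
    rw [hu, hv]
    have e1 : ∑ i : Fin R, (ρ i + 2 + if max a b = (i : ℕ) + 1 then (-ρ i + γ i) else 0) =
        ∑ i : Fin R, (ρ i + 2 - (if max a b = (i : ℕ) + 1 then ρ i else 0) +
          (if max a b = (i : ℕ) + 1 then γ i else 0)) := by
      apply Finset.sum_congr rfl
      intro i _
      split_ifs <;> ring
    rw [e1, Finset.sum_add_distrib, Finset.sum_sub_distrib, Finset.sum_add_distrib,
      Finset.sum_const, Finset.card_univ, Fintype.card_fin, nsmul_eq_mul]
    ring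
  have hval : ∑ l, ker m ρ g l * (fac m ρ g a S l * fac m ρ g b S' l) =
      (1 / (1 - m)) * (1 / (1 - m)) * (1 - m - m * (∑ i : Fin R, ρ i) + m *
        ∑ i : Fin R, ∑ l, kk (ρ i) (g i) l * (ff (ρ i) (g i) a ((i : ℕ) + 1) (S i) l *
      ff (ρ i) (g i) b ((i : ℕ) + 1) (S' i) l)) := by
    rw [sum_lab]
    simp only [ker, fac, mul_zero, zero_add]
    have : ∑ i : Fin R, ∑ l, m * kk (ρ i) (g i) l *
        (1 / (1 - m) * ff (ρ i) (g i) a ((i : ℕ) + 1) (S i) l *
          (1 / (1 - m) * ff (ρ i) (g i) b ((i : ℕ) + 1) (S' i) l)) =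
        (1 / (1 - m)) * (1 / (1 - m)) * (m * ∑ i : Fin R, ∑ l, kk (ρ i) (g i) l *
          (ff (ρ i) (g i) a ((i : ℕ) + 1) (S i) l *
            ff (ρ i) (g i) b ((i : ℕ) + 1) (S' i) l)) := by
      rw [Finset.mul_sum, Finset.mul_sum]
      apply Finset.sum_congr rfl
      intro i _
      rw [Finset.mul_sum, Finset.mul_sum]
      apply Finset.sum_congr rfl
      intro l _
      ring
    rw [this]
    ring
  rw [hval]
  have hb1 : 1 / (1 - m) ≤ Real.exp (2 * m) := by
    rw [div_le_iff₀ h0]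
    have h1 := Real.add_one_le_exp (2 * m)
    nlinarith [mul_le_mul_of_nonneg_right h1 h0.le]
  have hb2 : 1 / (1 - m) * (1 - m - m * (∑ i : Fin R, ρ i) + m *
        ∑ i : Fin R, ∑ l, kk (ρ i) (g i) l * (ff (ρ i) (g i) a ((i : ℕ) + 1) (S i) l *
      ff (ρ i) (g i) b ((i : ℕ) + 1) (S' i) l)) ≤ Real.exp (m * (4 * R + dd ρ g a b S S')) := by
    have h1 : 1 - m - m * (∑ i : Fin R, ρ i) + m *
        ∑ i : Fin R, ∑ l, kk (ρ i) (g i) l * (ff (ρ i) (g i) a ((i : ℕ) + 1) (S i) l *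
      ff (ρ i) (g i) b ((i : ℕ) + 1) (S' i) l) ≤ (1 - m) + m * (2 * R - u + v) := by
      have := mul_le_mul_of_nonneg_left hsum hm
      linarith
    have h2 : 1 / (1 - m) * ((1 - m) + m * (2 * R - u + v)) ≤ 1 + m * (4 * R - u + 2 * v) := by
      rw [one_div, inv_mul_le_iff₀ h0]
      have hR : (0:ℝ) ≤ R := Nat.cast_nonneg R
      have h3 : 0 ≤ m * (1 - 2 * m) * (2 * R + v) := by
        apply mul_nonneg (mul_nonneg hm (by linarith)) (by linarith)
      have h4 : 0 ≤ m * m * u := by positivity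
      nlinarith
    have h3 := Real.add_one_le_exp (m * (4 * R + dd ρ g a b S S'))
    rw [hdd] at h3 ⊢
    calc _ ≤ 1 / (1 - m) * ((1 - m) + m * (2 * R - u + v)) :=
          mul_le_mul_of_nonneg_left h1 (by positivity)
      _ ≤ 1 + m * (4 * R - u + 2 * v) := h2
      _ ≤ _ := by linarith
  have hpos : 0 ≤ 1 / (1 - m) := by positivity
  calc _ = 1 / (1 - m) * (1 / (1 - m) * (1 - m - m * (∑ i : Fin R, ρ i) + m *
        ∑ i : Fin R, ∑ l, kk (ρ i) (g i) l * (ff (ρ i) (g i) a ((i : ℕ) + 1) (S i) l *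
      ff (ρ i) (g i) b ((i : ℕ) + 1) (S' i) l))) := by ring
    _ ≤ 1 / (1 - m) * Real.exp (m * (4 * R + dd ρ g a b S S')) :=
        mul_le_mul_of_nonneg_left hb2 hpos
    _ ≤ Real.exp (2 * m) * Real.exp (m * (4 * R + dd ρ g a b S S')) :=
        mul_le_mul_of_nonneg_right hb1 (Real.exp_pos _).le
    _ = _ := by rw [← Real.exp_add]; congr 1; ring

end lab

end Pool.Agent.Q179.DG
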