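import Mathlib
import Pool.Agent.Y415.Frac.H
import Pool.Agent.Q179.DG.B

set_option autoImplicit false

/-!
# Levels and the chain estimate
-/

open Finset Function
open scoped Classical

namespace Pool.Agent.Q179.DG

open Pool.Agent.Y415.Frac (Cl mem_Cl)

set_option linter.unusedSectionVars false

variable {n : ℕ}

/-- weighted number of cliques -/
noncomputable def cs (adj : Fin n → Fin n → Prop) (μ : Fin n → ℝ) (k : ℕ) (A : Finset (Fin n)) : ℝ :=
  ∑ T ∈ Cl adj k A, ∏ i, μ (T i)

/-- the level of the pair `z, x` -/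
noncomputable def lev (N : Fin n → Finset (Fin n)) (adj : Fin n → Fin n → Prop) (η : ℕ → ℝ) (R : ℕ)
    (μ : Fin n → ℝ) (z x : Fin n) : ℕ :=
  ((Finset.range R).filter (fun i => η i ≤ cs adj μ (i + 1)
    ((N z).filter (fun t => (if _h : t < z then lev N adj η R μ t z else i + 2) ≤ i + 1) ∩
      N x))).sup (fun i => i + 1)
termination_by z
decreasing_by all_goals exact _h

/-- neighbours of level at most `L` -/
noncomputable def Nl (N : Fin n → Finset (Fin n)) (adj : Fin n → Fin n → Prop) (η : ℕ → ℝ) (R : ℕ)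
    (μ : Fin n → ℝ) (z : Fin n) (L : ℕ) : Finset (Fin n) :=
  (N z).filter (fun t => lev N adj η R μ t z ≤ L)

section
variable {N : Fin n → Finset (Fin n)} (hN : ∀ x, ∀ y ∈ N x, y < x)
  {adj : Fin n → Fin n → Prop} {η : ℕ → ℝ} {R : ℕ}

include hN in
theorem lev_eq (μ : Fin n → ℝ) (z x : Fin n) : lev N adj η R μ z x =
    ((Finset.range R).filter (fun i => η i ≤ cs adj μ (i + 1)
      (Nl N adj η R μ z (i + 1) ∩ N x))).sup (fun i => i + 1) := by
  rw [lev]
  have : ∀ i, (N z).filter (fun t => (if _h : t < z then lev N adj η R μ t z else i + 2) ≤ i + 1) =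
      Nl N adj η R μ z (i + 1) := by
    intro i
    unfold Nl
    apply Finset.filter_congr
    intro t ht
    rw [dif_pos (hN z t ht)]
  simp only [this]

include hN in
theorem lev_le (μ : Fin n → ℝ) (z x : Fin n) : lev N adj η R μ z x ≤ R := by
  rw [lev_eq hN]
  apply Finset.sup_le
  intro i hi
  exact Finset.mem_range.1 (Finset.mem_filter.1 hi).1

include hN in
theorem lev_heavy {μ : Fin n → ℝ} {z x : Fin n} {i : ℕ} (h : lev N adj η R μ z x = i + 1) :
    i < R ∧ η i ≤ cs adj μ (i + 1) (Nl N adj η R μ z (i + 1) ∩ N x) := by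
  rw [lev_eq hN] at h
  set F := (Finset.range R).filter (fun i => η i ≤ cs adj μ (i + 1)
      (Nl N adj η R μ z (i + 1) ∩ N x)) with hF
  have hne : F.Nonempty := by
    by_contra hcon
    rw [Finset.not_nonempty_iff_eq_empty] at hcon
    rw [hcon] at h
    simp at h
  obtain ⟨j, hj, hj2⟩ := Finset.exists_mem_eq_sup F hne (fun i => i + 1)
  rw [h] at hj2
  have : j = i := by omega
  subst this
  rw [hF, Finset.mem_filter, Finset.mem_range] at hj
  exact hj

include hN in
theorem lev_light {μ : Fin n → ℝ} {z x : Fin n} {i : ℕ} (hi : i < R)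
    (h : lev N adj η R μ z x ≤ i) :
    cs adj μ (i + 1) (Nl N adj η R μ z (i + 1) ∩ N x) < η i := by
  by_contra hcon
  push Not at hcon
  rw [lev_eq hN] at h
  have h1 : i + 1 ≤ ((Finset.range R).filter (fun i => η i ≤ cs adj μ (i + 1)
      (Nl N adj η R μ z (i + 1) ∩ N x))).sup (fun i => i + 1) :=
    Finset.le_sup (f := fun i => i + 1) (Finset.mem_filter.2 ⟨Finset.mem_range.2 hi, hcon⟩)
  omega

include hN in
theorem lev_congr {μ μ' : Fin n → ℝ} (z : Fin n) (h : ∀ t, t < z → μ t = μ' t) :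
    ∀ x, lev N adj η R μ z x = lev N adj η R μ' z x := by
  induction z using WellFoundedLT.induction with
  | ind z ih =>
    intro x
    rw [lev_eq hN, lev_eq hN]
    have e1 : ∀ i, Nl N adj η R μ z i = Nl N adj η R μ' z i := by
      intro i
      unfold Nl
      apply Finset.filter_congr
      intro t ht
      rw [ih t (hN z t ht) (fun s hs => h s (hs.trans (hN z t ht))) z]
    have e2 : ∀ i, cs adj μ (i + 1) (Nl N adj η R μ z (i + 1) ∩ N x) =
        cs adj μ' (i + 1) (Nl N adj η R μ' z (i + 1) ∩ N x) := by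
      intro i
      rw [e1]
      unfold cs
      apply Finset.sum_congr rfl
      intro T hT
      rw [mem_Cl] at hT
      apply Finset.prod_congr rfl
      intro k _
      apply h
      exact hN z _ (Finset.mem_filter.1 (Finset.mem_inter.1 (hT.1 k)).1).1
    simp only [e2]

include hN in
theorem Nl_congr {μ μ' : Fin n → ℝ} (z : Fin n) (h : ∀ t, t < z → μ t = μ' t) (L : ℕ) :
    Nl N adj η R μ z L = Nl N adj η R μ' z L := by
  unfold Nl
  apply Finset.filter_congr
  intro t ht
  rw [lev_congr hN t (fun s hs => h s (hs.trans (hN z t ht))) z]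

theorem cs_nonneg {μ : Fin n → ℝ} (hμ : ∀ t, 0 ≤ μ t) (k : ℕ) (A : Finset (Fin n)) :
    0 ≤ cs adj μ k A := Finset.sum_nonneg fun T _ => Finset.prod_nonneg fun i _ => hμ _

theorem Cl_subset {k : ℕ} {A B : Finset (Fin n)} (h : A ⊆ B) : Cl adj k A ⊆ Cl adj k B := by
  intro T hT
  rw [mem_Cl] at hT ⊢
  exact ⟨fun i => h (hT.1 i), hT.2⟩

theorem cs_mono {μ : Fin n → ℝ} (hμ : ∀ t, 0 ≤ μ t) (k : ℕ) {A B : Finset (Fin n)} (h : A ⊆ B) :
    cs adj μ k A ≤ cs adj μ k B :=
  Finset.sum_le_sum_of_subset_of_nonneg (Cl_subset h) fun T _ _ =>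
    Finset.prod_nonneg fun i _ => hμ _

theorem cs_one {μ : Fin n → ℝ} (hμ : ∀ t, 0 ≤ μ t) (A : Finset (Fin n)) :
    cs adj μ (0 + 1) A = ∑ t ∈ A, μ t := by
  unfold cs
  symm
  apply Finset.sum_bij (fun t _ => fun _ : Fin (0 + 1) => t)
  · intro t ht
    rw [mem_Cl]
    refine ⟨fun _ => ht, fun i j hij => ?_⟩
    exact absurd (Fin.ext (by omega)) hij
  · intro t _ t' _ h
    exact congrFun h 0
  · intro T hT
    rw [mem_Cl] at hT
    refine ⟨T 0, hT.1 0, ?_⟩
    funext i
    have : i = 0 := Fin.ext (by omega)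
    rw [this]
  · intro t _
    simp

/-- tuples with one coordinate in a small set -/
theorem one_coord {μ : Fin n → ℝ} (hμ : ∀ t, 0 ≤ μ t) (i : ℕ) (A J' : Finset (Fin n))
    {c : ℝ} (hA : ∑ t ∈ A, μ t ≤ c) (k : Fin (i + 1)) :
    ∑ T : Fin (i + 1) → Fin n, (if (∀ l, T l ∈ A) ∧ T k ∈ J' then ∏ l, μ (T l) else 0) ≤
      (∑ t ∈ J', μ t) * c ^ i := by
  set φ : Fin (i + 1) → Fin n → ℝ := fun l t =>
    if l = k then (if t ∈ J' then μ t else 0) else (if t ∈ A then μ t else 0) with hφ
  have hφ0 : ∀ l t, 0 ≤ φ l t := by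
    intro l t
    simp only [hφ]
    split_ifs <;> first | exact hμ t | exact le_rfl
  have h1 : ∀ T : Fin (i + 1) → Fin n,
      (if (∀ l, T l ∈ A) ∧ T k ∈ J' then ∏ l, μ (T l) else 0) ≤ ∏ l, φ l (T l) := by
    intro T
    split_ifs with h
    · apply le_of_eq
      apply Finset.prod_congr rfl
      intro l _
      simp only [hφ]
      by_cases hl : l = k
      · subst hl
        rw [if_pos rfl, if_pos h.2]
      · rw [if_neg hl, if_pos (h.1 l)]
    · exact Finset.prod_nonneg fun l _ => hφ0 _ _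
  refine (Finset.sum_le_sum fun T _ => h1 T).trans ?_
  have h2 : ∑ T : Fin (i + 1) → Fin n, ∏ l, φ l (T l) = ∏ l, ∑ t, φ l t := by
    rw [Finset.prod_univ_sum, Fintype.piFinset_univ]
  rw [h2, ← Finset.mul_prod_erase univ _ (Finset.mem_univ k)]
  have h3 : ∑ t, φ k t = ∑ t ∈ J', μ t := by
    simp only [hφ, if_true]
    rw [Finset.sum_ite_mem, Finset.univ_inter]
  have h4 : ∏ l ∈ univ.erase k, ∑ t, φ l t ≤ c ^ i := by
    have e1 : ∀ l ∈ univ.erase k, ∑ t, φ l t = ∑ t ∈ A, μ t := by
      intro l hl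
      have hne : l ≠ k := (Finset.mem_erase.1 hl).1
      simp only [hφ, if_neg hne]
      rw [Finset.sum_ite_mem, Finset.univ_inter]
    rw [Finset.prod_congr rfl e1, Finset.prod_const, Finset.card_erase_of_mem (Finset.mem_univ k),
      Finset.card_univ, Fintype.card_fin, Nat.add_sub_cancel]
    exact pow_le_pow_left₀ (Finset.sum_nonneg fun t _ => hμ t) hA i
  rw [h3]
  exact mul_le_mul_of_nonneg_left h4 (Finset.sum_nonneg fun t _ => hμ t)

/-- The chain of cliques. -/
theorem chain {μ : Fin n → ℝ} (hμ : ∀ t, 0 ≤ μ t) (i : ℕ) (J J₁ J' A : Finset (Fin n))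
    (B : Fin n → Finset (Fin n)) (hB : ∀ z ∈ J₁, ∀ t ∈ B z, adj z t ∧ adj t z)
    (hBJ : ∀ z ∈ J₁, B z ∩ J ⊆ A ∪ J') (hJA : J₁ ⊆ A) {c : ℝ} (hc : 0 ≤ c)
    (hBc : ∀ z ∈ J₁, 0 < μ z → ∑ t ∈ B z, μ t ≤ c) (hJ₁ : ∑ z ∈ J₁, μ z ≤ c) :
    ∑ z ∈ J₁, μ z * cs adj μ (i + 1) (B z ∩ J) ≤
      cs adj μ (i + 1 + 1) A + ((i : ℝ) + 1) * c ^ (i + 1) * ∑ t ∈ J', μ t := by
  -- pointwise
  have h1 : ∀ z ∈ J₁, μ z * cs adj μ (i + 1) (B z ∩ J) ≤
      ∑ T : Fin (i + 1) → Fin n, (if (Fin.cons z T : Fin (i + 1 + 1) → Fin n) ∈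
        Cl adj (i + 1 + 1) A then ∏ l, μ ((Fin.cons z T : Fin (i + 1 + 1) → Fin n) l) else 0) +
      μ z * (((i : ℝ) + 1) * ((∑ t ∈ J', μ t) * c ^ i)) := by
    intro z hz
    rcases (hμ z).eq_or_lt with h0 | h0
    · rw [← h0, zero_mul, zero_mul, add_zero]
      apply Finset.sum_nonneg
      intro T _
      split_ifs
      · exact Finset.prod_nonneg fun l _ => hμ _
      · exact le_rfl
    have h2 : cs adj μ (i + 1) (B z ∩ J) ≤
        ∑ T : Fin (i + 1) → Fin n, ((if (Fin.cons z T : Fin (i + 1 + 1) → Fin n) ∈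
          Cl adj (i + 1 + 1) A then ∏ l, μ (T l) else 0) +
          ∑ k : Fin (i + 1), (if (∀ l, T l ∈ B z) ∧ T k ∈ J' then ∏ l, μ (T l) else 0)) := by
      unfold cs
      rw [← Finset.sum_filter_add_sum_filter_not univ (fun T => T ∈ Cl adj (i + 1) (B z ∩ J)),
        Finset.filter_mem_eq_inter, Finset.univ_inter]
      have hnn : ∀ T : Fin (i + 1) → Fin n, 0 ≤ (if (Fin.cons z T : Fin (i + 1 + 1) → Fin n) ∈
          Cl adj (i + 1 + 1) A then ∏ l, μ (T l) else 0) := by
        intro T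
        split_ifs
        · exact Finset.prod_nonneg fun l _ => hμ _
        · exact le_rfl
      have hnn2 : ∀ (T : Fin (i + 1) → Fin n) (k : Fin (i + 1)),
          0 ≤ (if (∀ l, T l ∈ B z) ∧ T k ∈ J' then ∏ l, μ (T l) else 0) := by
        intro T k
        split_ifs
        · exact Finset.prod_nonneg fun l _ => hμ _
        · exact le_rfl
      refine le_add_of_le_of_nonneg ?_ (Finset.sum_nonneg fun T _ => add_nonneg (hnn T)
        (Finset.sum_nonneg fun k _ => hnn2 T k))
      apply Finset.sum_le_sum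
      intro T hT
      rw [mem_Cl] at hT
      by_cases hall : ∀ k, T k ∈ A
      · have hmem : (Fin.cons z T : Fin (i + 1 + 1) → Fin n) ∈ Cl adj (i + 1 + 1) A := by
          rw [mem_Cl]
          constructor
          · intro l
            refine Fin.cases ?_ (fun l => ?_) l
            · rw [Fin.cons_zero]; exact hJA hz
            · rw [Fin.cons_succ]; exact hall l
          · intro l l'
            refine Fin.cases ?_ (fun l => ?_) l
            · refine Fin.cases ?_ (fun l' => ?_) l'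
              · intro h; exact absurd rfl h
              · intro _
                rw [Fin.cons_zero, Fin.cons_succ]
                exact (hB z hz _ (Finset.mem_inter.1 (hT.1 l')).1).1
            · refine Fin.cases ?_ (fun l' => ?_) l'
              · intro _
                rw [Fin.cons_zero, Fin.cons_succ]
                exact (hB z hz _ (Finset.mem_inter.1 (hT.1 l)).1).2
              · intro h
                rw [Fin.cons_succ, Fin.cons_succ]
                exact hT.2 l l' (fun h' => h (by rw [h']))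
        rw [if_pos hmem]
        exact le_add_of_nonneg_right (Finset.sum_nonneg fun k _ => hnn2 T k)
      · push Not at hall
        obtain ⟨k, hk⟩ := hall
        have hk' : T k ∈ J' := by
          have := hBJ z hz (hT.1 k)
          rcases Finset.mem_union.1 this with h | h
          · exact absurd h hk
          · exact h
        have hcond : (∀ l, T l ∈ B z) ∧ T k ∈ J' :=
          ⟨fun l => (Finset.mem_inter.1 (hT.1 l)).1, hk'⟩
        calc ∏ l, μ (T l) = (if (∀ l, T l ∈ B z) ∧ T k ∈ J' then ∏ l, μ (T l) else 0) := by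
              rw [if_pos hcond]
          _ ≤ ∑ k : Fin (i + 1), (if (∀ l, T l ∈ B z) ∧ T k ∈ J' then ∏ l, μ (T l) else 0) :=
              Finset.single_le_sum (f := fun k => (if (∀ l, T l ∈ B z) ∧ T k ∈ J' then
                ∏ l, μ (T l) else 0)) (fun k _ => hnn2 T k) (Finset.mem_univ k)
          _ ≤ _ := le_add_of_nonneg_left (hnn T)
    calc μ z * cs adj μ (i + 1) (B z ∩ J) ≤ μ z *
          ∑ T : Fin (i + 1) → Fin n, ((if (Fin.cons z T : Fin (i + 1 + 1) → Fin n) ∈
            Cl adj (i + 1 + 1) A then ∏ l, μ (T l) else 0) +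
            ∑ k : Fin (i + 1), (if (∀ l, T l ∈ B z) ∧ T k ∈ J' then ∏ l, μ (T l) else 0)) :=
          mul_le_mul_of_nonneg_left h2 (hμ z)
      _ = ∑ T : Fin (i + 1) → Fin n, (if (Fin.cons z T : Fin (i + 1 + 1) → Fin n) ∈
            Cl adj (i + 1 + 1) A then ∏ l, μ ((Fin.cons z T : Fin (i + 1 + 1) → Fin n) l) else 0) +
          μ z * ∑ k : Fin (i + 1), ∑ T : Fin (i + 1) → Fin n,
            (if (∀ l, T l ∈ B z) ∧ T k ∈ J' then ∏ l, μ (T l) else 0) := by
          rw [Finset.sum_add_distrib, mul_add, Finset.sum_comm (s := univ) (t := univ)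
            (f := fun (T : Fin (i + 1) → Fin n) (k : Fin (i + 1)) =>
              (if (∀ l, T l ∈ B z) ∧ T k ∈ J' then ∏ l, μ (T l) else 0))]
          congr 1
          rw [Finset.mul_sum]
          apply Finset.sum_congr rfl
          intro T _
          rw [Fin.prod_univ_succ (fun l => μ ((Fin.cons z T : Fin (i + 1 + 1) → Fin n) l))]
          simp only [Fin.cons_zero, Fin.cons_succ]
          split_ifs <;> ring
      _ ≤ _ := by
          apply add_le_add_right
          apply mul_le_mul_of_nonneg_left _ (hμ z)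
          calc _ ≤ ∑ k : Fin (i + 1), (∑ t ∈ J', μ t) * c ^ i :=
                Finset.sum_le_sum fun k _ => one_coord hμ i (B z) J' (hBc z hz h0) k
            _ = _ := by
                rw [Finset.sum_const, Finset.card_univ, Fintype.card_fin, nsmul_eq_mul]
                push_cast
                ring
  refine (Finset.sum_le_sum h1).trans ?_
  rw [Finset.sum_add_distrib, ← Finset.sum_mul]
  apply add_le_add
  · -- all cliques
    have h2 : cs adj μ (i + 1 + 1) A = ∑ z : Fin n, ∑ T : Fin (i + 1) → Fin n,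
        (if (Fin.cons z T : Fin (i + 1 + 1) → Fin n) ∈
          Cl adj (i + 1 + 1) A then ∏ l, μ ((Fin.cons z T : Fin (i + 1 + 1) → Fin n) l) else 0) := by
      rw [← Fintype.sum_prod_type' (f := fun (z : Fin n) (T : Fin (i + 1) → Fin n) =>
        (if (Fin.cons z T : Fin (i + 1 + 1) → Fin n) ∈
          Cl adj (i + 1 + 1) A then ∏ l, μ ((Fin.cons z T : Fin (i + 1 + 1) → Fin n) l) else 0))]
      unfold cs
      have h3 : ∑ S : Fin (i + 1 + 1) → Fin n, (if S ∈ Cl adj (i + 1 + 1) A then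
          ∏ l, μ (S l) else 0) = ∑ T ∈ Cl adj (i + 1 + 1) A, ∏ i, μ (T i) := by
        rw [Finset.sum_ite_mem, Finset.univ_inter]
      rw [← h3, ← (Fin.consEquiv (fun _ : Fin (i + 1 + 1) => Fin n)).sum_comp]
      rfl
    rw [h2]
    apply Finset.sum_le_sum_of_subset_of_nonneg (Finset.subset_univ _)
    intro z _ _
    apply Finset.sum_nonneg
    intro T _
    split_ifs
    · exact Finset.prod_nonneg fun l _ => hμ _
    · exact le_rfl
  · have hJ0 : 0 ≤ ∑ t ∈ J', μ t := Finset.sum_nonneg fun t _ => hμ t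
    calc (∑ z ∈ J₁, μ z) * (((i : ℝ) + 1) * ((∑ t ∈ J', μ t) * c ^ i))
        ≤ c * (((i : ℝ) + 1) * ((∑ t ∈ J', μ t) * c ^ i)) :=
          mul_le_mul_of_nonneg_right hJ₁ (by positivity)
      _ = _ := by ring

end

end Pool.Agent.Q179.DG
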