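import Mathlib
import Pool.Agent.Y415.Frac.H
import Pool.Agent.Q179.DG.B
import Pool.Agent.Q179.DG.C

set_option autoImplicit false

/-!
# The static estimate for the pair exponents
-/

open Finset Function
open scoped Classical

namespace Pool.Agent.Q179.DG

open Pool.Agent.Y415.Frac (Cl mem_Cl Cl_inter)

set_option linter.unusedSectionVars false
set_option linter.unusedVariables false

variable {n : ℕ}

/-- normalised weights of the tuples -/
noncomputable def gg (N : Fin n → Finset (Fin n)) (adj : Fin n → Fin n → Prop) (η th : ℕ → ℝ)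
    (R : ℕ) (μ : Fin n → ℝ) (z : Fin n) (i : ℕ) (T : Fin (i + 1) → Fin n) : ℝ :=
  (if ∀ k, T k ∈ Nl N adj η R μ z (i + 1) then ∏ k, μ (T k) else 0) / th (i + 1) ^ (i + 1)

/-- the tuples seen by `x` at `z` -/
noncomputable def SS (N : Fin n → Finset (Fin n)) (adj : Fin n → Fin n → Prop) (η : ℕ → ℝ)
    (R : ℕ) (μ : Fin n → ℝ) (z x : Fin n) (i : ℕ) : Finset (Fin (i + 1) → Fin n) :=
  Cl adj (i + 1) (Nl N adj η R μ z (i + 1) ∩ N x)

/-- the crude exponents -/
noncomputable def UU (ρ η th : ℕ → ℝ) (i : ℕ) : ℝ := 2 * ρ i ^ 2 * th (i + 1) ^ (i + 2) / η i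

/-- the absorbed exponents -/
noncomputable def ka (ρ η th : ℕ → ℝ) (i : ℕ) : ℝ :=
  2 * ρ i ^ 2 * (th (i + 1) ^ (i + 1) / η i ^ 2) * (((i : ℝ) + 1) * th (i + 1) ^ (i + 1))

/-- the exponent for pairs of level `L` -/
noncomputable def EE (R : ℕ) (ρ η th : ℕ → ℝ) (L : ℕ) : ℝ :=
  (if L = 0 then (2 + 4 * (R : ℝ)) else (2 + 4 * (R : ℝ)) * th 0) +
    ∑ i ∈ range (L - 1), UU ρ η th i + R

/-- The conditions for the parameters. -/
structure Par (R : ℕ) (K : ℝ) (ρ η th : ℕ → ℝ) : Prop where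
  K0 : 0 < K
  th0 : ∀ L, 0 < th L
  η0 : ∀ i, 0 < η i
  η1 : η 0 ≤ 1
  ρ2 : ∀ i, 2 ≤ ρ i
  ηη : ∀ i, i < R → 2 * ρ i ^ 2 * th (i + 1) ^ (i + 1) * η (i + 1) ≤ η i ^ 2
  ρκ : ∀ i, i < R → (2 + 4 * (R : ℝ)) + ∑ j ∈ range (i - 1), ka ρ η th j ≤ ρ i
  thE : ∀ L, L ≤ R → 8 * ((R : ℝ) + 1) * ∑ L' ∈ range (L + 1), K * Real.exp (EE R ρ η th L') ≤ th L

section
variable {N : Fin n → Finset (Fin n)} {adj : Fin n → Fin n → Prop} {ρ η th : ℕ → ℝ} {R : ℕ} {K : ℝ}

theorem gg_nonneg (hp : Par R K ρ η th) {μ : Fin n → ℝ} (hμ : ∀ t, 0 ≤ μ t) (z : Fin n) (i : ℕ)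
    (T : Fin (i + 1) → Fin n) : 0 ≤ gg N adj η th R μ z i T := by
  unfold gg
  apply div_nonneg
  · split_ifs
    · exact Finset.prod_nonneg fun k _ => hμ _
    · exact le_rfl
  · exact pow_nonneg (hp.th0 _).le _

theorem gg_sum_le (hp : Par R K ρ η th) {μ : Fin n → ℝ} (hμ : ∀ t, 0 ≤ μ t) (z : Fin n) (i : ℕ)
    (hz : ∑ t ∈ Nl N adj η R μ z (i + 1), μ t ≤ th (i + 1)) :
    ∑ T, gg N adj η th R μ z i T ≤ 1 := by
  unfold gg
  rw [← Finset.sum_div, div_le_one (pow_pos (hp.th0 _) _)]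
  have h1 : ∑ T : Fin (i + 1) → Fin n,
      (if ∀ k, T k ∈ Nl N adj η R μ z (i + 1) then ∏ k, μ (T k) else 0) =
      (∑ t ∈ Nl N adj η R μ z (i + 1), μ t) ^ (i + 1) := by
    rw [← Finset.sum_filter]
    have h2 : (Finset.univ.filter (fun T : Fin (i + 1) → Fin n =>
        ∀ k, T k ∈ Nl N adj η R μ z (i + 1))) =
        Fintype.piFinset (fun _ => Nl N adj η R μ z (i + 1)) := by
      ext T; simp [Fintype.mem_piFinset]
    rw [h2, ← Finset.prod_univ_sum, Finset.prod_const, Finset.card_univ, Fintype.card_fin]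
  rw [h1]
  exact pow_le_pow_left₀ (Finset.sum_nonneg fun t _ => hμ t) hz _

theorem gg_sum_Cl (μ : Fin n → ℝ) (z : Fin n) (i : ℕ) {A : Finset (Fin n)}
    (hA : A ⊆ Nl N adj η R μ z (i + 1)) :
    ∑ T ∈ Cl adj (i + 1) A, gg N adj η th R μ z i T = cs adj μ (i + 1) A / th (i + 1) ^ (i + 1) := by
  unfold cs
  rw [Finset.sum_div]
  apply Finset.sum_congr rfl
  intro T hT
  rw [mem_Cl] at hT
  unfold gg
  rw [if_pos (fun k => hA (hT.1 k))]

theorem gg_SS (μ : Fin n → ℝ) (z x : Fin n) (i : ℕ) :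
    ∑ T ∈ SS N adj η R μ z x i, gg N adj η th R μ z i T =
      cs adj μ (i + 1) (Nl N adj η R μ z (i + 1) ∩ N x) / th (i + 1) ^ (i + 1) :=
  gg_sum_Cl μ z i Finset.inter_subset_left

theorem gg_SS_inter (μ : Fin n → ℝ) (z x y : Fin n) (i : ℕ) :
    ∑ T ∈ SS N adj η R μ z x i ∩ SS N adj η R μ z y i, gg N adj η th R μ z i T =
      cs adj μ (i + 1) (Nl N adj η R μ z (i + 1) ∩ (N x ∩ N y)) / th (i + 1) ^ (i + 1) := by
  unfold SS
  rw [Cl_inter]
  have : Nl N adj η R μ z (i + 1) ∩ N x ∩ (Nl N adj η R μ z (i + 1) ∩ N y) =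
      Nl N adj η R μ z (i + 1) ∩ (N x ∩ N y) := by
    ext w; simp only [Finset.mem_inter]; tauto
  rw [this]
  exact gg_sum_Cl μ z i Finset.inter_subset_left

theorem SS_pos (hN : ∀ x, ∀ y ∈ N x, y < x) (hp : Par R K ρ η th) (μ : Fin n → ℝ) (z x : Fin n)
    (i : ℕ) (h : lev N adj η R μ z x = i + 1) :
    0 < ∑ T ∈ SS N adj η R μ z x i, gg N adj η th R μ z i T := by
  rw [gg_SS]
  exact div_pos (lt_of_lt_of_le (hp.η0 i) (lev_heavy hN h).2) (pow_pos (hp.th0 _) _)

/-- one scale -/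
theorem scale (hN : ∀ x, ∀ y ∈ N x, y < x) (hadj : ∀ z y, y ∈ N z → adj z y ∧ adj y z)
    (hp : Par R K ρ η th) {μ : Fin n → ℝ} (hμ : ∀ t, 0 ≤ μ t)
    (hz : ∀ z, 0 < μ z → ∀ L, L ≤ R → ∑ t ∈ Nl N adj η R μ z L, μ t ≤ th L)
    {x y : Fin n} (hyx : y ∈ N x) (hCl : Cl adj (R + 1) (N y ∩ N x) = ∅)
    (hyg : ∀ L, L ≤ R → ∑ t ∈ Nl N adj η R μ y L, μ t ≤ th L) (i : ℕ) (hi : i < R) :
    ∑ z ∈ (N x ∩ N y).filter (fun z => lev N adj η R μ z x = i + 1 ∧ lev N adj η R μ z y = i + 1),
      μ z * (2 * (ρ i ^ 2 * (∑ T ∈ SS N adj η R μ z x i ∩ SS N adj η R μ z y i,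
        gg N adj η th R μ z i T) / ((∑ T ∈ SS N adj η R μ z x i, gg N adj η th R μ z i T) *
          ∑ T ∈ SS N adj η R μ z y i, gg N adj η th R μ z i T))) ≤
    (if i + 1 < lev N adj η R μ y x then UU ρ η th i else 1 + ka ρ η th i *
      ∑ t ∈ (N x ∩ N y).filter (fun t => i + 3 ≤ max (lev N adj η R μ t x) (lev N adj η R μ t y)),
        μ t) := by
  set J := N x ∩ N y with hJ
  set J₁ := J.filter (fun z => lev N adj η R μ z x = i + 1 ∧ lev N adj η R μ z y = i + 1) with hJ₁
  set J' := J.filter (fun t => i + 3 ≤ max (lev N adj η R μ t x) (lev N adj η R μ t y)) with hJ'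
  have hρ0 : 0 < ρ i := by linarith [hp.ρ2 i]
  have hth : 0 < th (i + 1) := hp.th0 _
  have hη := hp.η0 i
  have hJ₁le : ∑ z ∈ J₁, μ z ≤ th (i + 1) := by
    refine le_trans ?_ (hyg (i + 1) hi)
    apply Finset.sum_le_sum_of_subset_of_nonneg _ (fun t _ _ => hμ t)
    intro z hz'
    rw [hJ₁, Finset.mem_filter, hJ, Finset.mem_inter] at hz'
    unfold Nl
    rw [Finset.mem_filter]
    exact ⟨hz'.1.2, hz'.2.2.le⟩
  -- the ratio
  have hval : ∀ z ∈ J₁, μ z * (2 * (ρ i ^ 2 * (∑ T ∈ SS N adj η R μ z x i ∩ SS N adj η R μ z y i,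
        gg N adj η th R μ z i T) / ((∑ T ∈ SS N adj η R μ z x i, gg N adj η th R μ z i T) *
          ∑ T ∈ SS N adj η R μ z y i, gg N adj η th R μ z i T))) =
      2 * ρ i ^ 2 * th (i + 1) ^ (i + 1) *
        (μ z * cs adj μ (i + 1) (Nl N adj η R μ z (i + 1) ∩ J) /
          (cs adj μ (i + 1) (Nl N adj η R μ z (i + 1) ∩ N x) *
            cs adj μ (i + 1) (Nl N adj η R μ z (i + 1) ∩ N y))) := by
    intro z hz'
    rw [hJ₁, Finset.mem_filter] at hz'
    rw [gg_SS, gg_SS, gg_SS_inter]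
    have h1 : 0 < cs adj μ (i + 1) (Nl N adj η R μ z (i + 1) ∩ N x) :=
      lt_of_lt_of_le hη (lev_heavy hN hz'.2.1).2
    have h2 : 0 < cs adj μ (i + 1) (Nl N adj η R μ z (i + 1) ∩ N y) :=
      lt_of_lt_of_le hη (lev_heavy hN hz'.2.2).2
    have h3 : 0 < th (i + 1) ^ (i + 1) := pow_pos hth _
    rw [hJ]
    field_simp
  rw [Finset.sum_congr rfl hval, ← Finset.mul_sum]
  have hc0 : 0 ≤ 2 * ρ i ^ 2 * th (i + 1) ^ (i + 1) := by positivity
  split_ifs with hL
  · -- crude
    have h1 : ∀ z ∈ J₁, μ z * cs adj μ (i + 1) (Nl N adj η R μ z (i + 1) ∩ J) /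
          (cs adj μ (i + 1) (Nl N adj η R μ z (i + 1) ∩ N x) *
            cs adj μ (i + 1) (Nl N adj η R μ z (i + 1) ∩ N y)) ≤ μ z * (1 / η i) := by
      intro z hz'
      rw [hJ₁, Finset.mem_filter] at hz'
      have h1 : η i ≤ cs adj μ (i + 1) (Nl N adj η R μ z (i + 1) ∩ N x) := (lev_heavy hN hz'.2.1).2
      have h2 : η i ≤ cs adj μ (i + 1) (Nl N adj η R μ z (i + 1) ∩ N y) := (lev_heavy hN hz'.2.2).2
      have h3 : cs adj μ (i + 1) (Nl N adj η R μ z (i + 1) ∩ J) ≤
          cs adj μ (i + 1) (Nl N adj η R μ z (i + 1) ∩ N x) := by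
        apply cs_mono hμ
        rw [hJ]
        exact Finset.inter_subset_inter_left Finset.inter_subset_left
      rw [mul_div_assoc]
      apply mul_le_mul_of_nonneg_left _ (hμ z)
      rw [div_le_div_iff₀ (mul_pos (by linarith) (by linarith)) hη]
      have h4 := cs_nonneg (adj := adj) hμ (i + 1) (Nl N adj η R μ z (i + 1) ∩ J)
      have h5 := mul_le_mul h3 h2 hη.le (by linarith)
      linarith
    calc 2 * ρ i ^ 2 * th (i + 1) ^ (i + 1) * _ ≤
        2 * ρ i ^ 2 * th (i + 1) ^ (i + 1) * ∑ z ∈ J₁, μ z * (1 / η i) :=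
          mul_le_mul_of_nonneg_left (Finset.sum_le_sum h1) hc0
      _ = 2 * ρ i ^ 2 * th (i + 1) ^ (i + 1) * (1 / η i) * ∑ z ∈ J₁, μ z := by
          rw [← Finset.sum_mul]; ring
      _ ≤ 2 * ρ i ^ 2 * th (i + 1) ^ (i + 1) * (1 / η i) * th (i + 1) :=
          mul_le_mul_of_nonneg_left hJ₁le (by positivity)
      _ = UU ρ η th i := by
          unfold UU
          ring
  · -- fine
    have h1 : ∀ z ∈ J₁, μ z * cs adj μ (i + 1) (Nl N adj η R μ z (i + 1) ∩ J) /
          (cs adj μ (i + 1) (Nl N adj η R μ z (i + 1) ∩ N x) *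
            cs adj μ (i + 1) (Nl N adj η R μ z (i + 1) ∩ N y)) ≤
          (μ z * cs adj μ (i + 1) (Nl N adj η R μ z (i + 1) ∩ J)) * (1 / η i ^ 2) := by
      intro z hz'
      rw [hJ₁, Finset.mem_filter] at hz'
      have h1 : η i ≤ cs adj μ (i + 1) (Nl N adj η R μ z (i + 1) ∩ N x) := (lev_heavy hN hz'.2.1).2
      have h2 : η i ≤ cs adj μ (i + 1) (Nl N adj η R μ z (i + 1) ∩ N y) := (lev_heavy hN hz'.2.2).2
      have h4 := cs_nonneg (adj := adj) hμ (i + 1) (Nl N adj η R μ z (i + 1) ∩ J)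
      rw [div_eq_mul_one_div]
      apply mul_le_mul_of_nonneg_left _ (mul_nonneg (hμ z) h4)
      apply one_div_le_one_div_of_le (by positivity)
      rw [sq]
      exact mul_le_mul h1 h2 hη.le (by linarith)
    have hch := chain hμ i J J₁ J' (Nl N adj η R μ y (i + 2) ∩ N x)
      (fun z => Nl N adj η R μ z (i + 1)) (fun z _ t ht => hadj z t (Finset.mem_filter.1 ht).1)
      (by
        intro z hz' t ht
        rw [Finset.mem_inter] at ht
        have htJ := ht.2
        rw [hJ, Finset.mem_inter] at htJ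
        rw [Finset.mem_union]
        by_cases hlt : lev N adj η R μ t y ≤ i + 2
        · left
          rw [Finset.mem_inter]
          refine ⟨?_, htJ.1⟩
          unfold Nl
          rw [Finset.mem_filter]
          exact ⟨htJ.2, hlt⟩
        · right
          rw [hJ', Finset.mem_filter]
          refine ⟨ht.2, le_trans ?_ (le_max_right _ _)⟩
          omega)
      (by
        intro z hz'
        rw [hJ₁, Finset.mem_filter, hJ, Finset.mem_inter] at hz'
        rw [Finset.mem_inter]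
        refine ⟨?_, hz'.1.1⟩
        unfold Nl
        rw [Finset.mem_filter]
        refine ⟨hz'.1.2, ?_⟩
        omega) hth.le
      (fun z _ h0 => hz z h0 (i + 1) hi) hJ₁le
    have hlast : cs adj μ (i + 1 + 1) (Nl N adj η R μ y (i + 2) ∩ N x) ≤ η (i + 1) := by
      by_cases hiR : i + 1 < R
      · exact (lev_light hN hiR (by omega)).le
      · have hR : R = i + 1 := by omega
        have h5 : cs adj μ (i + 1 + 1) (Nl N adj η R μ y (i + 2) ∩ N x) ≤
            cs adj μ (i + 1 + 1) (N y ∩ N x) := by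
          apply cs_mono hμ
          exact Finset.inter_subset_inter_right (Finset.filter_subset _ _)
        have h6 : cs adj μ (i + 1 + 1) (N y ∩ N x) = 0 := by
          unfold cs
          rw [hR] at hCl
          rw [hCl, Finset.sum_empty]
        linarith [hp.η0 (i + 1)]
    have hJ'0 : 0 ≤ ∑ t ∈ J', μ t := Finset.sum_nonneg fun t _ => hμ t
    calc 2 * ρ i ^ 2 * th (i + 1) ^ (i + 1) * _ ≤
        2 * ρ i ^ 2 * th (i + 1) ^ (i + 1) *
          ∑ z ∈ J₁, (μ z * cs adj μ (i + 1) (Nl N adj η R μ z (i + 1) ∩ J)) * (1 / η i ^ 2) :=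
          mul_le_mul_of_nonneg_left (Finset.sum_le_sum h1) hc0
      _ = 2 * ρ i ^ 2 * th (i + 1) ^ (i + 1) * (1 / η i ^ 2) *
          ∑ z ∈ J₁, μ z * cs adj μ (i + 1) (Nl N adj η R μ z (i + 1) ∩ J) := by
          rw [← Finset.sum_mul]; ring
      _ ≤ 2 * ρ i ^ 2 * th (i + 1) ^ (i + 1) * (1 / η i ^ 2) *
          (η (i + 1) + ((i : ℝ) + 1) * th (i + 1) ^ (i + 1) * ∑ t ∈ J', μ t) := by
          apply mul_le_mul_of_nonneg_left _ (by positivity)
          refine hch.trans ?_
          linarith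
      _ = (2 * ρ i ^ 2 * th (i + 1) ^ (i + 1) * η (i + 1)) / η i ^ 2 +
          ka ρ η th i * ∑ t ∈ J', μ t := by
          unfold ka
          field_simp
      _ ≤ _ := by
          apply add_le_add_left
          rw [div_le_one (by positivity)]
          exact hp.ηη i hi

theorem ka_nonneg (hp : Par R K ρ η th) (i : ℕ) : 0 ≤ ka ρ η th i := by
  have h1 := hp.th0 (i + 1)
  have h2 := hp.η0 i
  unfold ka
  positivity

theorem UU_nonneg (hp : Par R K ρ η th) (i : ℕ) : 0 ≤ UU ρ η th i := by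
  have h1 := hp.th0 (i + 1)
  have h2 := hp.η0 i
  unfold UU
  positivity

/-- The estimate of the pair exponents. -/
theorem static_est (hN : ∀ x, ∀ y ∈ N x, y < x) (hadj : ∀ z y, y ∈ N z → adj z y ∧ adj y z)
    (hp : Par R K ρ η th) {μ : Fin n → ℝ} (hμ : ∀ t, 0 ≤ μ t)
    (hz : ∀ z, 0 < μ z → ∀ L, L ≤ R → ∑ t ∈ Nl N adj η R μ z L, μ t ≤ th L)
    {x y : Fin n} (hyx : y ∈ N x) (hCl : Cl adj (R + 1) (N y ∩ N x) = ∅)
    (hyg : ∀ L, L ≤ R → ∑ t ∈ Nl N adj η R μ y L, μ t ≤ th L) :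
    ∑ z ∈ N x ∩ N y, μ z * (2 + 4 * (R : ℝ) + dd ρ (fun i : Fin R => gg N adj η th R μ z i)
      (lev N adj η R μ z x) (lev N adj η R μ z y) (fun i => SS N adj η R μ z x i)
      (fun i => SS N adj η R μ z y i)) ≤ EE R ρ η th (lev N adj η R μ y x) := by
  set J := N x ∩ N y with hJ
  set L := lev N adj η R μ y x with hL
  set M : Fin n → ℕ := fun z => max (lev N adj η R μ z x) (lev N adj η R μ z y) with hM
  set c : ℝ := 2 + 4 * (R : ℝ) with hc
  have hc0 : 0 ≤ c := by positivity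
  set b : ℕ → ℝ := fun j => ∑ z ∈ J.filter (fun z => M z = j), μ z with hb
  have hb0 : ∀ j, 0 ≤ b j := fun j => Finset.sum_nonneg fun t _ => hμ t
  set G : ℕ → ℝ := fun i => ∑ z ∈ J.filter (fun z => lev N adj η R μ z x = i + 1 ∧
      lev N adj η R μ z y = i + 1), μ z * (2 * (ρ i ^ 2 *
      (∑ T ∈ SS N adj η R μ z x i ∩ SS N adj η R μ z y i,
        gg N adj η th R μ z i T) / ((∑ T ∈ SS N adj η R μ z x i, gg N adj η th R μ z i T) *
          ∑ T ∈ SS N adj η R μ z y i, gg N adj η th R μ z i T))) with hG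
  -- step 1
  have hstep1 : ∑ z ∈ J, μ z * (c + dd ρ (fun i : Fin R => gg N adj η th R μ z i)
      (lev N adj η R μ z x) (lev N adj η R μ z y) (fun i => SS N adj η R μ z x i)
      (fun i => SS N adj η R μ z y i)) =
      c * ∑ z ∈ J, μ z + ∑ i ∈ range R, (-ρ i * b (i + 1) + G i) := by
    have h1 : ∀ z ∈ J, μ z * (c + dd ρ (fun i : Fin R => gg N adj η th R μ z i)
      (lev N adj η R μ z x) (lev N adj η R μ z y) (fun i => SS N adj η R μ z x i)
      (fun i => SS N adj η R μ z y i)) =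
        c * μ z + ∑ i ∈ range R, (-ρ i * (if M z = i + 1 then μ z else 0) +
          (if lev N adj η R μ z x = i + 1 ∧ lev N adj η R μ z y = i + 1 then
            μ z * (2 * (ρ i ^ 2 * (∑ T ∈ SS N adj η R μ z x i ∩ SS N adj η R μ z y i,
        gg N adj η th R μ z i T) / ((∑ T ∈ SS N adj η R μ z x i, gg N adj η th R μ z i T) *
          ∑ T ∈ SS N adj η R μ z y i, gg N adj η th R μ z i T))) else 0)) := by
      intro z _
      unfold dd
      rw [mul_add, Finset.mul_sum, mul_comm (μ z) c]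
      congr 1
      rw [Finset.sum_range]
      apply Finset.sum_congr rfl
      intro i _
      simp only [hM]
      by_cases h1 : max (lev N adj η R μ z x) (lev N adj η R μ z y) = (i : ℕ) + 1
      · rw [if_pos h1, if_pos h1]
        by_cases h2 : lev N adj η R μ z x = lev N adj η R μ z y
        · have h3 : lev N adj η R μ z x = (i : ℕ) + 1 := by
            rw [← h2, max_self] at h1; exact h1
          rw [if_pos h2, if_pos ⟨h3, h2 ▸ h3⟩]
          ring
        · rw [if_neg h2, if_neg (fun h => h2 (h.1.trans h.2.symm))]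
          ring
      · rw [if_neg h1, if_neg h1, if_neg (fun h => h1 (by rw [h.1, h.2, max_self]))]
        ring
    rw [Finset.sum_congr rfl h1, Finset.sum_add_distrib, ← Finset.mul_sum, Finset.sum_comm]
    congr 1
    apply Finset.sum_congr rfl
    intro i _
    rw [Finset.sum_add_distrib, ← Finset.mul_sum, ← Finset.sum_filter, ← Finset.sum_filter]
  -- fibres
  have hMR : ∀ z, M z ≤ R := fun z => max_le (lev_le hN μ z x) (lev_le hN μ z y)
  have hfib : ∑ z ∈ J, μ z = b 0 + ∑ j ∈ range R, b (j + 1) := by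
    rw [← Finset.sum_fiberwise_of_maps_to (s := J) (t := range (R + 1)) (g := M)
      (fun z _ => Finset.mem_range.2 (Nat.lt_succ_of_le (hMR z))), Finset.sum_range_succ', add_comm]
  have hfib2 : ∀ i, ∑ t ∈ J.filter (fun t => i + 3 ≤ M t), μ t =
      ∑ j ∈ range R, (if i + 2 ≤ j then b (j + 1) else 0) := by
    intro i
    rw [← Finset.sum_fiberwise_of_maps_to (s := J.filter (fun t => i + 3 ≤ M t))
      (t := range (R + 1)) (g := M)
      (fun z _ => Finset.mem_range.2 (Nat.lt_succ_of_le (hMR z))), Finset.sum_range_succ']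
    have h0 : ∑ z ∈ (J.filter (fun t => i + 3 ≤ M t)).filter (fun z => M z = 0), μ z = 0 := by
      apply Finset.sum_eq_zero
      intro z hz'
      rw [Finset.mem_filter, Finset.mem_filter] at hz'
      omega
    rw [h0, add_zero]
    apply Finset.sum_congr rfl
    intro j _
    rw [Finset.filter_filter]
    split_ifs with hij
    · simp only [hb]
      congr 1
      apply Finset.filter_congr
      intro z _
      constructor
      · intro h; exact h.2
      · intro h; exact ⟨by omega, h⟩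
    · apply Finset.sum_eq_zero
      intro z hz'
      rw [Finset.mem_filter] at hz'
      omega
  -- scales
  have hscale : ∀ i, i < R → G i ≤ (if i + 1 < L then UU ρ η th i else 0) + 1 +
      ka ρ η th i * ∑ j ∈ range R, (if i + 2 ≤ j then b (j + 1) else 0) := by
    intro i hi
    have h1 := scale hN hadj hp hμ hz hyx hCl hyg i hi
    refine h1.trans ?_
    have h2 := ka_nonneg hp i
    have h3 : ∑ t ∈ (N x ∩ N y).filter (fun t => i + 3 ≤ max (lev N adj η R μ t x)
        (lev N adj η R μ t y)), μ t = ∑ j ∈ range R, (if i + 2 ≤ j then b (j + 1) else 0) :=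
      hfib2 i
    rw [h3]
    have h4 : 0 ≤ ∑ j ∈ range R, (if i + 2 ≤ j then b (j + 1) else 0) :=
      Finset.sum_nonneg fun j _ => by
        split_ifs
        · exact hb0 _
        · exact le_rfl
    have h5 := mul_nonneg h2 h4
    rw [← hL]
    split_ifs
    · linarith
    · linarith
  -- the level zero part
  have hzero : c * b 0 ≤ (if L = 0 then c else c * th 0) := by
    split_ifs with h0
    · refine mul_le_of_le_one_right hc0 ?_
      rcases Nat.eq_zero_or_pos R with hR | hR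
      · have h1 : (N y ∩ N x).card = 0 := by
          have h2 := Pool.Agent.Y415.Frac.card_le_Cl_one (adj := adj) (N y ∩ N x)
          rw [hR, zero_add] at hCl
          rw [hCl, Finset.card_empty] at h2
          omega
        have h2 : b 0 = 0 := by
          simp only [hb]
          apply Finset.sum_eq_zero
          intro z hz'
          rw [Finset.mem_filter, hJ, Finset.inter_comm, Finset.card_eq_zero.1 h1] at hz'
          exact absurd hz'.1 (Finset.notMem_empty _)
        rw [h2]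
        exact zero_le_one
      · have h1 := lev_light hN hR (show lev N adj η R μ y x ≤ 0 by rw [← hL, h0])
        rw [cs_one hμ] at h1
        have h2 : b 0 ≤ ∑ t ∈ Nl N adj η R μ y (0 + 1) ∩ N x, μ t := by
          simp only [hb]
          apply Finset.sum_le_sum_of_subset_of_nonneg _ (fun t _ _ => hμ t)
          intro z hz'
          rw [Finset.mem_filter, hJ, Finset.mem_inter] at hz'
          rw [Finset.mem_inter]
          refine ⟨?_, hz'.1.1⟩
          unfold Nl
          rw [Finset.mem_filter]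
          refine ⟨hz'.1.2, ?_⟩
          have h3 : lev N adj η R μ z y ≤ M z := le_max_right _ _
          omega
        linarith [hp.η1]
    · apply mul_le_mul_of_nonneg_left _ hc0
      refine le_trans ?_ (hyg 0 (Nat.zero_le _))
      simp only [hb]
      apply Finset.sum_le_sum_of_subset_of_nonneg _ (fun t _ _ => hμ t)
      intro z hz'
      rw [Finset.mem_filter, hJ, Finset.mem_inter] at hz'
      unfold Nl
      rw [Finset.mem_filter]
      refine ⟨hz'.1.2, ?_⟩
      have h3 : lev N adj η R μ z y ≤ M z := le_max_right _ _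
      omega
  -- the crude scales
  have hcrude : ∑ i ∈ range R, (if i + 1 < L then UU ρ η th i else 0) ≤
      ∑ i ∈ range (L - 1), UU ρ η th i := by
    rw [← Finset.sum_filter]
    apply Finset.sum_le_sum_of_subset_of_nonneg _ (fun i _ _ => UU_nonneg hp i)
    intro i hi
    rw [Finset.mem_filter] at hi
    rw [Finset.mem_range]
    omega
  -- absorption
  have habs : ∑ i ∈ range R, ka ρ η th i * ∑ j ∈ range R, (if i + 2 ≤ j then b (j + 1) else 0) ≤
      ∑ j ∈ range R, b (j + 1) * (ρ j - c) := by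
    have h1 : ∑ i ∈ range R, ka ρ η th i * ∑ j ∈ range R, (if i + 2 ≤ j then b (j + 1) else 0) =
        ∑ j ∈ range R, b (j + 1) * ∑ i ∈ range R, (if i + 2 ≤ j then ka ρ η th i else 0) := by
      simp only [Finset.mul_sum]
      rw [Finset.sum_comm]
      apply Finset.sum_congr rfl
      intro j _
      apply Finset.sum_congr rfl
      intro i _
      split_ifs <;> ring
    rw [h1]
    apply Finset.sum_le_sum
    intro j hj
    apply mul_le_mul_of_nonneg_left _ (hb0 _)
    have h2 : ∑ i ∈ range R, (if i + 2 ≤ j then ka ρ η th i else 0) ≤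
        ∑ i ∈ range (j - 1), ka ρ η th i := by
      rw [← Finset.sum_filter]
      apply Finset.sum_le_sum_of_subset_of_nonneg _ (fun i _ _ => ka_nonneg hp i)
      intro i hi
      rw [Finset.mem_filter] at hi
      rw [Finset.mem_range]
      omega
    have h3 := hp.ρκ j (Finset.mem_range.1 hj)
    linarith
  rw [hstep1, hfib]
  have h1 : ∑ i ∈ range R, (-ρ i * b (i + 1) + G i) ≤ ∑ i ∈ range R, (-ρ i * b (i + 1)) +
      (∑ i ∈ range R, (if i + 1 < L then UU ρ η th i else 0) + R +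
        ∑ i ∈ range R, ka ρ η th i * ∑ j ∈ range R, (if i + 2 ≤ j then b (j + 1) else 0)) := by
    rw [Finset.sum_add_distrib]
    apply add_le_add le_rfl
    have h2 : (R : ℝ) = ∑ i ∈ range R, (1 : ℝ) := by
      rw [Finset.sum_const, Finset.card_range, nsmul_eq_mul, mul_one]
    rw [h2, ← Finset.sum_add_distrib, ← Finset.sum_add_distrib]
    apply Finset.sum_le_sum
    intro i hi
    exact hscale i (Finset.mem_range.1 hi)
  have h2 : ∑ j ∈ range R, b (j + 1) * (ρ j - c) = -∑ i ∈ range R, (-ρ i * b (i + 1)) -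
      c * ∑ j ∈ range R, b (j + 1) := by
    rw [Finset.mul_sum, ← Finset.sum_neg_distrib, ← Finset.sum_sub_distrib]
    apply Finset.sum_congr rfl
    intro j _
    ring
  unfold EE
  rw [mul_add]
  linarith

end

end Pool.Agent.Q179.DG
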