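import Mathlib
import Pool.Agent.Y415.Frac.H
import Pool.Agent.Q179.DG.A
import Pool.Agent.Q179.DG.B
import Pool.Agent.Q179.DG.C
import Pool.Agent.Q179.DG.D

set_option autoImplicit false

/-!
# The sequential process
-/

open Finset Function
open scoped Classical

namespace Pool.Agent.Q179.DG

open Pool.Agent.Y415.Frac (Cl mem_Cl Cl_inter)

set_option linter.unusedSectionVars false
set_option linter.unusedVariables false

/-- all data of the process -/
structure Dat (n : ℕ) where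
  N : Fin n → Finset (Fin n)
  adj : Fin n → Fin n → Prop
  ρ : ℕ → ℝ
  η : ℕ → ℝ
  th : ℕ → ℝ
  R : ℕ
  K : ℝ
  d : ℕ
  B : ℝ
  lam : ℝ

namespace Dat

variable {n : ℕ} (D : Dat n)

/-- labels -/
abbrev La : Type := Lab (fun i : Fin D.R => Fin ((i : ℕ) + 1) → Fin n)

/-- histories -/
abbrev Om : Type := Fin n → D.La

/-- sampled labels -/
def smp : D.La → Prop
  | none => False
  | some none => False
  | some (some _) => True

/-- levels -/
noncomputable abbrev lv (μ : Fin n → ℝ) (z x : Fin n) : ℕ := lev D.N D.adj D.η D.R μ z x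

/-- lower neighbourhoods -/
noncomputable abbrev nl (μ : Fin n → ℝ) (z : Fin n) (L : ℕ) : Finset (Fin n) :=
  Nl D.N D.adj D.η D.R μ z L

/-- tuple weights -/
noncomputable abbrev gt (μ : Fin n → ℝ) (z : Fin n) (i : Fin D.R) (T : Fin ((i : ℕ) + 1) → Fin n) :
    ℝ := gg D.N D.adj D.η D.th D.R μ z i T

/-- tuples seen -/
noncomputable abbrev st (μ : Fin n → ℝ) (z x : Fin n) (i : Fin D.R) :
    Finset (Fin ((i : ℕ) + 1) → Fin n) := SS D.N D.adj D.η D.R μ z x i

/-- good vertices -/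
def good (μ : Fin n → ℝ) (ω : D.Om) (x : Fin n) : Prop :=
  (∀ L, L ≤ D.R → ∑ t ∈ D.nl μ x L, μ t ≤ D.th L) ∧
    (((D.N x).filter (fun z => D.smp (ω z))).card : ℝ) ≤ D.B

/-- the factor of `z` for `x` -/
noncomputable def phi (μ : Fin n → ℝ) (ω : D.Om) (x z : Fin n) : ℝ :=
  fac (μ z) D.ρ (D.gt μ z) (D.lv μ z x) (D.st μ z x) (ω z)

/-- the step -/
noncomputable def Phi (μ : Fin n → ℝ) (ω : D.Om) (x : Fin n) : ℝ :=
  D.K / D.d * (∏ z ∈ D.N x, D.phi μ ω x z) * (if D.good μ ω x then 1 else 0)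

/-- the activity -/
noncomputable def mm (ω : D.Om) (x : Fin n) : ℝ :=
  D.Phi (fun t => if _h : t < x then mm ω t else 0) ω x
termination_by x
decreasing_by all_goals exact _h

/-- the assumptions -/
structure Ok : Prop where
  hN : ∀ x, ∀ y ∈ D.N x, y < x
  hNd : ∀ x, (D.N x).card ≤ D.d
  hadj : ∀ z y, y ∈ D.N z → D.adj z y ∧ D.adj y z
  hCl : ∀ u, ∀ x ∈ D.N u, Cl D.adj (D.R + 1) (D.N x ∩ D.N u) = ∅
  hp : Par D.R D.K D.ρ D.η D.th
  hd : 0 < D.d
  hB : 0 < D.B
  hB2 : 2 * (∑ i ∈ range D.R, D.ρ i) * D.th D.R ≤ D.B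
  hlam : 2 ≤ Real.exp D.lam
  hlam2 : ∀ i, i < D.R → D.ρ i * D.th (i + 1) ^ (i + 1) / D.η i ≤ Real.exp D.lam
  hmb : D.K / D.d * Real.exp (2 * D.th D.R + D.lam * D.B) * (1 + ∑ i ∈ range D.R, D.ρ i) ≤ 1 / 2

variable {D}

section congr

variable (h : D.Ok)
include h

theorem lv_congr {μ μ' : Fin n → ℝ} (z x : Fin n) (hμ : ∀ t, t < z → μ t = μ' t) :
    D.lv μ z x = D.lv μ' z x := lev_congr h.hN z hμ x

theorem nl_congr {μ μ' : Fin n → ℝ} (z : Fin n) (hμ : ∀ t, t < z → μ t = μ' t) (L : ℕ) :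
    D.nl μ z L = D.nl μ' z L := Nl_congr h.hN z hμ L

theorem gt_congr {μ μ' : Fin n → ℝ} (z : Fin n) (hμ : ∀ t, t < z → μ t = μ' t) :
    D.gt μ z = D.gt μ' z := by
  funext i T
  show gg _ _ _ _ _ _ _ _ _ = gg _ _ _ _ _ _ _ _ _
  unfold gg
  have h1 := nl_congr h z hμ ((i : ℕ) + 1)
  unfold nl at h1
  rw [h1]
  congr 1
  split_ifs with hT
  · apply Finset.prod_congr rfl
    intro k _
    exact hμ _ (h.hN z _ (Finset.mem_filter.1 (hT k)).1)
  · rfl

theorem st_congr {μ μ' : Fin n → ℝ} (z x : Fin n) (hμ : ∀ t, t < z → μ t = μ' t) :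
    D.st μ z x = D.st μ' z x := by
  funext i
  show SS _ _ _ _ _ _ _ _ = SS _ _ _ _ _ _ _ _
  unfold SS
  have h1 := nl_congr h z hμ ((i : ℕ) + 1)
  unfold nl at h1
  rw [h1]

theorem phi_congr {μ μ' : Fin n → ℝ} {ω ω' : D.Om} (x z : Fin n) (hμ : ∀ t, t ≤ z → μ t = μ' t)
    (hω : ω z = ω' z) : D.phi μ ω x z = D.phi μ' ω' x z := by
  unfold phi
  rw [gt_congr h z (fun t ht => hμ t ht.le), lv_congr h z x (fun t ht => hμ t ht.le),
    st_congr h z x (fun t ht => hμ t ht.le), hμ z le_rfl, hω]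

theorem good_congr {μ μ' : Fin n → ℝ} {ω ω' : D.Om} (x : Fin n) (hμ : ∀ t, t < x → μ t = μ' t)
    (hω : ∀ t, t < x → ω t = ω' t) : D.good μ ω x ↔ D.good μ' ω' x := by
  unfold good
  have e1 : ∀ L, ∑ t ∈ D.nl μ x L, μ t = ∑ t ∈ D.nl μ' x L, μ' t := by
    intro L
    rw [nl_congr h x hμ L]
    apply Finset.sum_congr rfl
    intro t ht
    exact hμ t (h.hN x t (Finset.mem_filter.1 ht).1)
  have e2 : (D.N x).filter (fun z => D.smp (ω z)) = (D.N x).filter (fun z => D.smp (ω' z)) := by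
    apply Finset.filter_congr
    intro t ht
    rw [hω t (h.hN x t ht)]
  simp only [e1, e2]

theorem Phi_congr {μ μ' : Fin n → ℝ} {ω ω' : D.Om} (x : Fin n) (hμ : ∀ t, t < x → μ t = μ' t)
    (hω : ∀ t, t < x → ω t = ω' t) : D.Phi μ ω x = D.Phi μ' ω' x := by
  unfold Phi
  have e1 : ∏ z ∈ D.N x, D.phi μ ω x z = ∏ z ∈ D.N x, D.phi μ' ω' x z := by
    apply Finset.prod_congr rfl
    intro z hz
    exact phi_congr h x z (fun t ht => hμ t (lt_of_le_of_lt ht (h.hN x z hz)))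
      (hω z (h.hN x z hz))
  rw [e1]
  congr 1
  simp only [good_congr h x hμ hω]

theorem mm_eq (ω : D.Om) (x : Fin n) : D.mm ω x = D.Phi (D.mm ω) ω x := by
  rw [mm]
  apply Phi_congr h x _ (fun t _ => rfl)
  intro t ht
  rw [dif_pos ht]

theorem mm_congr {ω ω' : D.Om} (x : Fin n) (hω : ∀ t, t < x → ω t = ω' t) :
    D.mm ω x = D.mm ω' x := by
  induction x using WellFoundedLT.induction with
  | ind x ih =>
    rw [mm_eq h, mm_eq h]
    apply Phi_congr h x _ hω
    intro t ht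
    exact ih t ht (fun s hs => hω s (hs.trans ht))

theorem mm_update (ω : D.Om) (z : Fin n) (l : D.La) (t : Fin n) (ht : t ≤ z) :
    D.mm (update ω z l) t = D.mm ω t := by
  apply mm_congr h
  intro s hs
  rw [update_of_ne]
  exact (lt_of_lt_of_le hs ht).ne

end congr

section bounds

variable (h : D.Ok)
include h

theorem rho_sum : ∑ i : Fin D.R, D.ρ i = ∑ i ∈ range D.R, D.ρ i :=
  (Finset.sum_range _).symm

theorem rho_nonneg : 0 ≤ ∑ i ∈ range D.R, D.ρ i :=
  Finset.sum_nonneg fun i _ => by linarith [h.hp.ρ2 i]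

theorem lam_nonneg : 0 ≤ D.lam := by
  by_contra hcon
  push Not at hcon
  have := Real.exp_lt_exp.2 hcon
  rw [Real.exp_zero] at this
  linarith [h.hlam]

theorem fac_le {μ : Fin n → ℝ} (hμ : ∀ t, 0 ≤ μ t) (ω : D.Om) (x z : Fin n)
    (h1 : μ z ≤ 1 / 2) :
    D.phi μ ω x z ≤ Real.exp (2 * μ z + (if D.smp (ω z) then D.lam else 0)) := by
  have h0 := hμ z
  have hb1 : 1 / (1 - μ z) ≤ Real.exp (2 * μ z) := by
    rw [div_le_iff₀ (by linarith)]
    have h2 := Real.add_one_le_exp (2 * μ z)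
    nlinarith [mul_le_mul_of_nonneg_right h2 (show 0 ≤ 1 - μ z by linarith)]
  have hb0 : 0 ≤ 1 / (1 - μ z) := div_nonneg zero_le_one (by linarith)
  unfold phi
  generalize ω z = l
  match l with
  | none =>
    show 1 / (1 - μ z) ≤ _
    rw [if_neg (show ¬ D.smp none from fun hh => hh), add_zero]
    exact hb1
  | some none =>
    show (0 : ℝ) ≤ _
    exact (Real.exp_pos _).le
  | some (some ⟨i, l⟩) =>
    show 1 / (1 - μ z) * ff (D.ρ i) (D.gt μ z i) (D.lv μ z x) ((i : ℕ) + 1) (D.st μ z x i) l ≤ _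
    rw [if_pos (show D.smp (some (some ⟨i, l⟩)) from trivial), Real.exp_add]
    apply mul_le_mul hb1 _ _ (Real.exp_pos _).le
    · unfold ff
      have hρ := h.hp.ρ2 i
      have hl := h.hlam
      split_ifs with c1 c2
      · match l with
        | none =>
          show D.ρ i / (D.ρ i - 1) ≤ _
          refine le_trans ?_ hl
          rw [div_le_iff₀ (by linarith)]
          linarith
        | some none => show (0 : ℝ) ≤ _; exact (Real.exp_pos _).le
        | some (some T) => show (0 : ℝ) ≤ _; exact (Real.exp_pos _).le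
      · match l with
        | none => show (0 : ℝ) ≤ _; exact (Real.exp_pos _).le
        | some none => show (0 : ℝ) ≤ _; exact (Real.exp_pos _).le
        | some (some T) =>
          show (if T ∈ D.st μ z x i then D.ρ i / ∑ T ∈ D.st μ z x i, D.gt μ z i T else 0) ≤ _
          split_ifs
          · refine le_trans ?_ (h.hlam2 i i.2)
            have h3 : ∑ T ∈ D.st μ z x i, D.gt μ z i T =
                cs D.adj μ (i + 1) (D.nl μ z (i + 1) ∩ D.N x) / D.th (i + 1) ^ ((i : ℕ) + 1) :=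
              gg_SS μ z x i
            rw [h3]
            have h4 : D.η i ≤ cs D.adj μ (i + 1) (D.nl μ z (i + 1) ∩ D.N x) :=
              (lev_heavy h.hN c2).2
            have h5 := h.hp.η0 i
            have h6 : 0 < D.th (i + 1) ^ ((i : ℕ) + 1) := pow_pos (h.hp.th0 _) _
            rw [div_div_eq_mul_div]
            apply div_le_div_of_nonneg_left _ h5 h4
            positivity
          · exact (Real.exp_pos _).le
      · linarith
    · exact ff_nonneg (h.hp.ρ2 i) (fun T => gg_nonneg h.hp hμ z i T) _ _ _ _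

theorem phi_nonneg {μ : Fin n → ℝ} (hμ : ∀ t, 0 ≤ μ t) (ω : D.Om) (x z : Fin n)
    (h1 : μ z ≤ 1 / 2) : 0 ≤ D.phi μ ω x z :=
  fac_nonneg h1 h.hp.ρ2 (fun i T => gg_nonneg h.hp hμ z i T) _ _ _

/-- the uniform bound -/
theorem K_pos : 0 < D.K / D.d := div_pos h.hp.K0 (by exact_mod_cast h.hd)

theorem mb_half : D.K / D.d * Real.exp (2 * D.th D.R + D.lam * D.B) ≤ 1 / 2 := by
  refine le_trans ?_ h.hmb
  apply le_mul_of_one_le_right
  · exact mul_nonneg (K_pos h).le (Real.exp_pos _).le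
  · linarith [rho_nonneg h]

theorem nl_top (μ : Fin n → ℝ) (x : Fin n) : D.nl μ x D.R = D.N x := by
  show Nl _ _ _ _ _ _ _ = _
  unfold Nl
  rw [Finset.filter_true_of_mem]
  intro t _
  exact lev_le h.hN μ t x

theorem Phi_nonneg {μ : Fin n → ℝ} (hμ : ∀ t, 0 ≤ μ t) (hμ1 : ∀ t, μ t ≤ 1 / 2) (ω : D.Om)
    (x : Fin n) : 0 ≤ D.Phi μ ω x := by
  unfold Phi
  apply mul_nonneg
  · exact mul_nonneg (K_pos h).le (Finset.prod_nonneg fun z _ => phi_nonneg h hμ ω x z (hμ1 z))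
  · split_ifs <;> norm_num

theorem Phi_le {μ : Fin n → ℝ} (hμ : ∀ t, 0 ≤ μ t) (hμ1 : ∀ t, μ t ≤ 1 / 2) (ω : D.Om)
    (x : Fin n) : D.Phi μ ω x ≤ D.K / D.d * Real.exp (2 * D.th D.R + D.lam * D.B) := by
  unfold Phi
  by_cases hg : D.good μ ω x
  · rw [if_pos hg, mul_one]
    apply mul_le_mul_of_nonneg_left _ (K_pos h).le
    refine (Finset.prod_le_prod (fun z _ => phi_nonneg h hμ ω x z (hμ1 z))
      (fun z _ => fac_le h hμ ω x z (hμ1 z))).trans ?_
    rw [← Real.exp_sum]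
    apply Real.exp_le_exp.2
    rw [Finset.sum_add_distrib, ← Finset.mul_sum]
    apply add_le_add
    · have h1 := hg.1 D.R le_rfl
      rw [nl_top h] at h1
      linarith
    · rw [← Finset.sum_filter, Finset.sum_const, nsmul_eq_mul, mul_comm]
      exact mul_le_mul_of_nonneg_left hg.2 (lam_nonneg h)
  · rw [if_neg hg, mul_zero]
    exact mul_nonneg (K_pos h).le (Real.exp_pos _).le

theorem mm_bounds (ω : D.Om) (x : Fin n) : 0 ≤ D.mm ω x ∧
    D.mm ω x ≤ D.K / D.d * Real.exp (2 * D.th D.R + D.lam * D.B) := by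
  induction x using WellFoundedLT.induction with
  | ind x ih =>
    rw [mm]
    have h0 : ∀ t, 0 ≤ (if _h : t < x then D.mm ω t else 0) := by
      intro t
      split_ifs with ht
      · exact (ih t ht).1
      · exact le_rfl
    have h1 : ∀ t, (if _h : t < x then D.mm ω t else 0) ≤ 1 / 2 := by
      intro t
      split_ifs with ht
      · exact (ih t ht).2.trans (mb_half h)
      · norm_num
    exact ⟨Phi_nonneg h h0 h1 ω x, Phi_le h h0 h1 ω x⟩

theorem mm_nonneg (ω : D.Om) (x : Fin n) : 0 ≤ D.mm ω x := (mm_bounds h ω x).1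

theorem mm_half (ω : D.Om) (x : Fin n) : D.mm ω x ≤ 1 / 2 :=
  (mm_bounds h ω x).2.trans (mb_half h)

theorem mm_rho (ω : D.Om) (x : Fin n) : D.mm ω x * (1 + ∑ i : Fin D.R, D.ρ i) ≤ 1 / 2 := by
  rw [rho_sum h]
  refine le_trans ?_ h.hmb
  exact mul_le_mul_of_nonneg_right (mm_bounds h ω x).2 (by linarith [rho_nonneg h])

theorem mm_good (ω : D.Om) (x : Fin n) (hx : 0 < D.mm ω x) : D.good (D.mm ω) ω x := by
  by_contra hcon
  rw [mm_eq h, Phi, if_neg hcon, mul_zero] at hx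
  exact absurd hx (lt_irrefl _)

end bounds

end Dat

end Pool.Agent.Q179.DG
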