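import Mathlib
import Pool.Agent.Q179.DG.E

set_option autoImplicit false

/-!
# The sequential process: probabilities
-/

open Finset Function
open scoped Classical

namespace Pool.Agent.Q179.DG

open Pool.Agent.Y415.Frac (Cl mem_Cl Cl_inter)

set_option linter.unusedSectionVars false
set_option linter.unusedVariables false

namespace Dat

variable {n : ℕ} (D : Dat n)

/-- the kernel -/
noncomputable def FF (z : Fin n) (ω : D.Om) : ℝ :=
  ker (D.mm ω z) D.ρ (D.gt (D.mm ω) z) (ω z)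

/-- the tilting factor -/
noncomputable def GG (x z : Fin n) (ω : D.Om) : ℝ :=
  if z ∈ D.N x then D.phi (D.mm ω) ω x z else 1

/-- the exponent -/
noncomputable def ex (x y z : Fin n) (ω : D.Om) : ℝ :=
  D.mm ω z * (2 + 4 * (D.R : ℝ) + dd D.ρ (D.gt (D.mm ω) z) (D.lv (D.mm ω) z x)
    (D.lv (D.mm ω) z y) (D.st (D.mm ω) z x) (D.st (D.mm ω) z y))

/-- the tilted kernel -/
noncomputable def FG (x z : Fin n) (ω : D.Om) : ℝ := D.FF z ω * D.GG x z ω

/-- the pair kernel -/
noncomputable def FE (x y z : Fin n) (ω : D.Om) : ℝ :=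
  D.FF z ω * (D.GG x z ω * D.GG y z ω) *
    Real.exp (-(if z ∈ D.N x ∩ D.N y then D.ex x y z ω else 0))

variable {D}

section

variable (h : D.Ok)
include h

theorem FF_ad : Ad (Λ := D.La) D.FF := by
  intro z ω ω' hω
  have h1 : ∀ t, t ≤ z → D.mm ω t = D.mm ω' t := fun t ht =>
    mm_congr h t (fun s hs => hω s (hs.le.trans ht))
  unfold FF
  rw [h1 z le_rfl, gt_congr h z (fun t ht => h1 t ht.le), hω z le_rfl]

theorem GG_ad (x : Fin n) : Ad (Λ := D.La) (D.GG x) := by
  intro z ω ω' hω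
  have h1 : ∀ t, t ≤ z → D.mm ω t = D.mm ω' t := fun t ht =>
    mm_congr h t (fun s hs => hω s (hs.le.trans ht))
  unfold GG
  rw [phi_congr h x z h1 (hω z le_rfl)]

theorem ex_ad (x y : Fin n) : Ad (Λ := D.La) (D.ex x y) := by
  intro z ω ω' hω
  have h1 : ∀ t, t ≤ z → D.mm ω t = D.mm ω' t := fun t ht =>
    mm_congr h t (fun s hs => hω s (hs.le.trans ht))
  have h2 : ∀ t, t < z → D.mm ω t = D.mm ω' t := fun t ht => h1 t ht.le
  unfold ex
  rw [h1 z le_rfl, gt_congr h z h2, lv_congr h z x h2, lv_congr h z y h2, st_congr h z x h2,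
    st_congr h z y h2]

theorem FG_ad (x : Fin n) : Ad (Λ := D.La) (D.FG x) := by
  intro z ω ω' hω
  unfold FG
  rw [FF_ad h z ω ω' hω, GG_ad h x z ω ω' hω]

theorem FE_ad (x y : Fin n) : Ad (Λ := D.La) (D.FE x y) := by
  intro z ω ω' hω
  unfold FE
  rw [FF_ad h z ω ω' hω, GG_ad h x z ω ω' hω, GG_ad h y z ω ω' hω, ex_ad h x y z ω ω' hω]

theorem FF_upd (z : Fin n) (ω : D.Om) (l : D.La) : D.FF z (update ω z l) =
    ker (D.mm ω z) D.ρ (D.gt (D.mm ω) z) l := by
  unfold FF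
  rw [update_self, mm_update h ω z l z le_rfl,
    gt_congr h z (fun t ht => mm_update h ω z l t ht.le)]

theorem GG_upd (x z : Fin n) (ω : D.Om) (l : D.La) : D.GG x z (update ω z l) =
    if z ∈ D.N x then fac (D.mm ω z) D.ρ (D.gt (D.mm ω) z) (D.lv (D.mm ω) z x)
      (D.st (D.mm ω) z x) l else 1 := by
  unfold GG phi
  have h2 : ∀ t, t < z → D.mm (update ω z l) t = D.mm ω t :=
    fun t ht => mm_update h ω z l t ht.le
  rw [update_self, mm_update h ω z l z le_rfl, gt_congr h z h2, lv_congr h z x h2,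
    st_congr h z x h2]

theorem ex_upd (x y z : Fin n) (ω : D.Om) (l : D.La) :
    D.ex x y z (update ω z l) = D.ex x y z ω := by
  unfold ex
  have h2 : ∀ t, t < z → D.mm (update ω z l) t = D.mm ω t :=
    fun t ht => mm_update h ω z l t ht.le
  rw [mm_update h ω z l z le_rfl, gt_congr h z h2, lv_congr h z x h2,
    st_congr h z x h2, lv_congr h z y h2, st_congr h z y h2]

theorem FF_sum (z : Fin n) (ω : D.Om) : ∑ l, D.FF z (update ω z l) = 1 := by
  simp only [FF_upd h]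
  exact ker_sum _ _ _

theorem st_pos (ω : D.Om) (z x : Fin n) (i : Fin D.R) (hi : D.lv (D.mm ω) z x = (i : ℕ) + 1) :
    0 < ∑ T ∈ D.st (D.mm ω) z x i, D.gt (D.mm ω) z i T :=
  SS_pos h.hN h.hp (D.mm ω) z x i hi

theorem FG_sum (x z : Fin n) (ω : D.Om) : ∑ l, D.FG x z (update ω z l) = 1 := by
  unfold FG
  simp only [FF_upd h, GG_upd h]
  by_cases hz : z ∈ D.N x
  · simp only [if_pos hz]
    exact fac_mean (mm_half h ω z) h.hp.ρ2 _ _ (fun i hi => st_pos h ω z x i hi)
  · simp only [if_neg hz, mul_one]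
    exact ker_sum _ _ _

theorem FE_sum (x y z : Fin n) (ω : D.Om) : ∑ l, D.FE x y z (update ω z l) ≤ 1 := by
  unfold FE
  simp only [FF_upd h, GG_upd h, ex_upd h]
  rw [← Finset.sum_mul]
  by_cases hx : z ∈ D.N x <;> by_cases hy : z ∈ D.N y
  · rw [if_pos (Finset.mem_inter.2 ⟨hx, hy⟩)]
    simp only [if_pos hx, if_pos hy]
    have h1 := fac_pair (mm_nonneg h ω z) (mm_half h ω z) h.hp.ρ2
      (g := D.gt (D.mm ω) z) (fun i T => gg_nonneg h.hp (mm_nonneg h ω) z i T)
      (D.lv (D.mm ω) z x) (D.lv (D.mm ω) z y) (D.st (D.mm ω) z x) (D.st (D.mm ω) z y)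
      (fun i hi => st_pos h ω z x i hi) (fun i hi => st_pos h ω z y i hi)
    calc _ ≤ Real.exp (D.ex x y z ω) * Real.exp (-D.ex x y z ω) :=
          mul_le_mul_of_nonneg_right h1 (Real.exp_pos _).le
      _ = 1 := by rw [← Real.exp_add, add_neg_cancel, Real.exp_zero]
  · rw [if_neg (fun hh => hy (Finset.mem_inter.1 hh).2), neg_zero, Real.exp_zero, mul_one]
    simp only [if_pos hx, if_neg hy, mul_one]
    exact (fac_mean (mm_half h ω z) h.hp.ρ2 _ _ (fun i hi => st_pos h ω z x i hi)).le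
  · rw [if_neg (fun hh => hx (Finset.mem_inter.1 hh).1), neg_zero, Real.exp_zero, mul_one]
    simp only [if_neg hx, if_pos hy, one_mul]
    exact (fac_mean (mm_half h ω z) h.hp.ρ2 _ _ (fun i hi => st_pos h ω z y i hi)).le
  · rw [if_neg (fun hh => hx (Finset.mem_inter.1 hh).1), neg_zero, Real.exp_zero, mul_one]
    simp only [if_neg hx, if_neg hy, mul_one]
    exact (ker_sum _ _ _).le

theorem FF_nonneg (z : Fin n) (ω : D.Om) : 0 ≤ D.FF z ω := by
  unfold FF
  apply ker_nonneg (mm_nonneg h ω z) h.hp.ρ2 (mm_rho h ω z)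
    (fun i T => gg_nonneg h.hp (mm_nonneg h ω) z i T)
  intro h0 i
  exact gg_sum_le h.hp (mm_nonneg h ω) z i ((mm_good h ω z h0).1 (i + 1) i.2)

theorem GG_nonneg (x z : Fin n) (ω : D.Om) : 0 ≤ D.GG x z ω := by
  unfold GG
  split_ifs
  · exact phi_nonneg h (mm_nonneg h ω) ω x z (mm_half h ω z)
  · exact zero_le_one

theorem FG_nonneg (x z : Fin n) (ω : D.Om) : 0 ≤ D.FG x z ω :=
  mul_nonneg (FF_nonneg h z ω) (GG_nonneg h x z ω)

theorem FE_nonneg (x y z : Fin n) (ω : D.Om) : 0 ≤ D.FE x y z ω :=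
  mul_nonneg (mul_nonneg (FF_nonneg h z ω) (mul_nonneg (GG_nonneg h x z ω) (GG_nonneg h y z ω)))
    (Real.exp_pos _).le

omit h in
theorem prod_GG (x : Fin n) (ω : D.Om) :
    ∏ z, D.GG x z ω = ∏ z ∈ D.N x, D.phi (D.mm ω) ω x z := by
  unfold GG
  rw [Finset.prod_ite_mem, Finset.univ_inter]

theorem P_mm (x : Fin n) (ω : D.Om) : (∏ z, D.FF z ω) * D.mm ω x =
    D.K / D.d * ((∏ z, D.FG x z ω) * (if D.good (D.mm ω) ω x then 1 else 0)) := by
  rw [mm_eq h ω x]
  unfold Phi FG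
  rw [Finset.prod_mul_distrib, prod_GG]
  ring

/-- pairs -/
theorem pair (x y : Fin n) (hyx : y ∈ D.N x) (L : ℕ) :
    ∑ ω : D.Om, (∏ z, D.FG x z ω) * (if D.lv (D.mm ω) y x = L then D.mm ω y else 0) ≤
      D.K / D.d * Real.exp (EE D.R D.ρ D.η D.th L) := by
  have hpt : ∀ ω : D.Om, (∏ z, D.FG x z ω) * (if D.lv (D.mm ω) y x = L then D.mm ω y else 0) ≤
      D.K / D.d * Real.exp (EE D.R D.ρ D.η D.th L) * ∏ z, D.FE x y z ω := by
    intro ω
    have hrhs : 0 ≤ D.K / D.d * Real.exp (EE D.R D.ρ D.η D.th L) * ∏ z, D.FE x y z ω :=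
      mul_nonneg (mul_nonneg (K_pos h).le (Real.exp_pos _).le)
        (Finset.prod_nonneg fun z _ => FE_nonneg h x y z ω)
    by_cases hL : D.lv (D.mm ω) y x = L
    · rw [if_pos hL]
      by_cases hg : D.good (D.mm ω) ω y
      · have hst := static_est h.hN h.hadj h.hp (mm_nonneg h ω)
          (fun z hz => (mm_good h ω z hz).1) hyx (h.hCl x y hyx) hg.1
        have hL' : lev D.N D.adj D.η D.R (D.mm ω) y x = L := hL
        rw [hL'] at hst
        have hst' : ∑ z ∈ D.N x ∩ D.N y, D.ex x y z ω ≤ EE D.R D.ρ D.η D.th L := hst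
        have h1 : (1 : ℝ) ≤ Real.exp (EE D.R D.ρ D.η D.th L) *
            ∏ z, Real.exp (-(if z ∈ D.N x ∩ D.N y then D.ex x y z ω else 0)) := by
          rw [← Real.exp_sum, ← Real.exp_add]
          apply Real.one_le_exp
          rw [Finset.sum_neg_distrib, Finset.sum_ite_mem, Finset.univ_inter]
          linarith
        have h2 : (∏ z, D.FG x z ω) * D.mm ω y = D.K / D.d * ∏ z, (D.FF z ω *
            (D.GG x z ω * D.GG y z ω)) := by
          have h3 := P_mm h y ω
          rw [if_pos hg, mul_one] at h3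
          unfold FG at h3 ⊢
          rw [Finset.prod_mul_distrib] at h3 ⊢
          rw [Finset.prod_mul_distrib, Finset.prod_mul_distrib]
          calc _ = ((∏ z, D.FF z ω) * D.mm ω y) * ∏ z, D.GG x z ω := by ring
            _ = _ := by rw [h3]; ring
        have h5 : ∏ z, D.FE x y z ω = (∏ z, (D.FF z ω * (D.GG x z ω * D.GG y z ω))) *
            ∏ z, Real.exp (-(if z ∈ D.N x ∩ D.N y then D.ex x y z ω else 0)) := by
          unfold FE
          exact Finset.prod_mul_distrib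
        rw [h2, h5]
        have h4 : 0 ≤ D.K / D.d * ∏ z, (D.FF z ω * (D.GG x z ω * D.GG y z ω)) := by
          apply mul_nonneg (K_pos h).le
          apply Finset.prod_nonneg
          intro z _
          exact mul_nonneg (FF_nonneg h z ω) (mul_nonneg (GG_nonneg h x z ω) (GG_nonneg h y z ω))
        calc _ ≤ (D.K / D.d * ∏ z, (D.FF z ω * (D.GG x z ω * D.GG y z ω))) *
              (Real.exp (EE D.R D.ρ D.η D.th L) *
            ∏ z, Real.exp (-(if z ∈ D.N x ∩ D.N y then D.ex x y z ω else 0))) :=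
              le_mul_of_one_le_right h4 h1
          _ = _ := by ring
      · have h0 : D.mm ω y = 0 := by
          rw [mm_eq h, Phi, if_neg hg, mul_zero]
        rw [h0, mul_zero]
        exact hrhs
    · rw [if_neg hL, mul_zero]
      exact hrhs
  refine (Finset.sum_le_sum fun ω _ => hpt ω).trans ?_
  rw [← Finset.mul_sum]
  apply mul_le_of_le_one_right (mul_nonneg (K_pos h).le (Real.exp_pos _).le)
  exact prod_le (D.FE x y) (FE_ad h x y) (fun z ω => FE_nonneg h x y z ω)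
    (fun z ω => FE_sum h x y z ω)

theorem mass (x : Fin n) (L : ℕ) :
    ∑ ω : D.Om, (∏ z, D.FG x z ω) * (∑ t ∈ D.nl (D.mm ω) x L, D.mm ω t) ≤
      ∑ L' ∈ range (L + 1), D.K * Real.exp (EE D.R D.ρ D.η D.th L') := by
  have h1 : ∀ ω : D.Om, (∏ z, D.FG x z ω) * (∑ t ∈ D.nl (D.mm ω) x L, D.mm ω t) =
      ∑ L' ∈ range (L + 1), ∑ y ∈ D.N x,
        (∏ z, D.FG x z ω) * (if D.lv (D.mm ω) y x = L' then D.mm ω y else 0) := by
    intro ω
    have e1 : ∑ t ∈ D.nl (D.mm ω) x L, D.mm ω t = ∑ L' ∈ range (L + 1), ∑ y ∈ D.N x,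
        (if D.lv (D.mm ω) y x = L' then D.mm ω y else 0) := by
      show ∑ t ∈ Nl D.N D.adj D.η D.R (D.mm ω) x L, D.mm ω t = _
      unfold Nl
      rw [Finset.sum_filter, Finset.sum_comm]
      apply Finset.sum_congr rfl
      intro t _
      rw [Finset.sum_ite_eq]
      by_cases hc : lev D.N D.adj D.η D.R (D.mm ω) t x ≤ L
      · rw [if_pos hc, if_pos (Finset.mem_range.2 (Nat.lt_succ_of_le hc))]
      · rw [if_neg hc, if_neg (fun hh => hc (Nat.le_of_lt_succ (Finset.mem_range.1 hh)))]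
    rw [e1, Finset.mul_sum]
    apply Finset.sum_congr rfl
    intro L' _
    rw [Finset.mul_sum]
  rw [Finset.sum_congr rfl fun ω _ => h1 ω, Finset.sum_comm]
  apply Finset.sum_le_sum
  intro L' _
  rw [Finset.sum_comm]
  have hd : (0 : ℝ) < D.d := by exact_mod_cast h.hd
  calc _ ≤ ∑ y ∈ D.N x, D.K / D.d * Real.exp (EE D.R D.ρ D.η D.th L') :=
        Finset.sum_le_sum fun y hy => pair h x y hy L'
    _ = ((D.N x).card : ℝ) * (D.K / D.d * Real.exp (EE D.R D.ρ D.η D.th L')) := by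
        rw [Finset.sum_const, nsmul_eq_mul]
    _ ≤ (D.d : ℝ) * (D.K / D.d * Real.exp (EE D.R D.ρ D.η D.th L')) := by
        apply mul_le_mul_of_nonneg_right _ (mul_nonneg (K_pos h).le (Real.exp_pos _).le)
        exact_mod_cast h.hNd x
    _ = _ := by field_simp

theorem mass_le (x : Fin n) (L : ℕ) (hL : L ≤ D.R) :
    ∑ ω : D.Om, (∏ z, D.FG x z ω) * (∑ t ∈ D.nl (D.mm ω) x L, D.mm ω t) ≤
      D.th L / (8 * ((D.R : ℝ) + 1)) := by
  refine (mass h x L).trans ?_
  rw [le_div_iff₀ (by positivity)]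
  have := h.hp.thE L hL
  linarith

/-- sampled labels -/
theorem smp_one (x y : Fin n) (hyx : y ∈ D.N x) :
    ∑ ω : D.Om, (∏ z, D.FG x z ω) * (if D.smp (ω y) then 1 else 0) ≤
      ∑ ω : D.Om, (∏ z, D.FG x z ω) * (2 * (∑ i ∈ range D.R, D.ρ i) * D.mm ω y) := by
  rw [tower (D.FG x) (FG_ad h x) (fun z ω => FG_sum h x z ω) y
    (fun ω => if D.smp (ω y) then 1 else 0) (fun ω ω' hω => by rw [hω y le_rfl])]
  apply Finset.sum_le_sum
  intro ω _
  apply mul_le_mul_of_nonneg_left _ (Finset.prod_nonneg fun z _ => FG_nonneg h x z ω)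
  have h1 := FG_sum h x y ω
  rw [Fintype.sum_option, Fintype.sum_option] at h1 ⊢
  simp only [update_self]
  have s0 : (if D.smp none then (1 : ℝ) else 0) = 0 := if_neg (fun hh => hh)
  have s1 : (if D.smp (some none) then (1 : ℝ) else 0) = 0 := if_neg (fun hh => hh)
  have s2 : ∀ p, (if D.smp (some (some p)) then (1 : ℝ) else 0) = 1 := fun p => if_pos trivial
  rw [s0, s1, mul_zero, mul_zero, zero_add, zero_add]
  simp only [s2, mul_one]
  have f0 : D.FG x y (update ω y none) = (1 - D.mm ω y - D.mm ω y * ∑ i : Fin D.R, D.ρ i) *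
      (1 / (1 - D.mm ω y)) := by
    unfold FG
    rw [FF_upd h, GG_upd h, if_pos hyx]
    rfl
  have f1 : D.FG x y (update ω y (some none)) = 0 := by
    unfold FG
    rw [FF_upd h, GG_upd h, if_pos hyx]
    show _ * (0 : ℝ) = 0
    rw [mul_zero]
  rw [f0, f1, zero_add, rho_sum h] at h1
  have hm0 := mm_nonneg h ω y
  have hm1 := mm_half h ω y
  have hρ := rho_nonneg h
  have hpos : 0 < 1 - D.mm ω y := by linarith
  have h2 : (1 - D.mm ω y - D.mm ω y * ∑ i ∈ range D.R, D.ρ i) * (1 / (1 - D.mm ω y)) =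
      1 - D.mm ω y * (∑ i ∈ range D.R, D.ρ i) / (1 - D.mm ω y) := by
    field_simp
  have h3 : D.mm ω y * (∑ i ∈ range D.R, D.ρ i) / (1 - D.mm ω y) ≤
      2 * (∑ i ∈ range D.R, D.ρ i) * D.mm ω y := by
    rw [div_le_iff₀ hpos]
    have h4 : 0 ≤ D.mm ω y * (∑ i ∈ range D.R, D.ρ i) := mul_nonneg hm0 hρ
    nlinarith
  linarith

theorem smp_all (x : Fin n) :
    ∑ ω : D.Om, (∏ z, D.FG x z ω) * (((D.N x).filter (fun z => D.smp (ω z))).card : ℝ) ≤
      D.B / (8 * ((D.R : ℝ) + 1)) := by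
  have h1 : ∀ ω : D.Om, (∏ z, D.FG x z ω) *
      (((D.N x).filter (fun z => D.smp (ω z))).card : ℝ) =
      ∑ y ∈ D.N x, (∏ z, D.FG x z ω) * (if D.smp (ω y) then 1 else 0) := by
    intro ω
    rw [← Finset.mul_sum, ← Finset.sum_filter, Finset.sum_const, nsmul_eq_mul, mul_one]
  rw [Finset.sum_congr rfl fun ω _ => h1 ω, Finset.sum_comm]
  refine (Finset.sum_le_sum fun y hy => smp_one h x y hy).trans ?_
  rw [Finset.sum_comm]
  have h2 : ∀ ω : D.Om, ∑ y ∈ D.N x, (∏ z, D.FG x z ω) *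
      (2 * (∑ i ∈ range D.R, D.ρ i) * D.mm ω y) = 2 * (∑ i ∈ range D.R, D.ρ i) *
      ((∏ z, D.FG x z ω) * (∑ t ∈ D.nl (D.mm ω) x D.R, D.mm ω t)) := by
    intro ω
    rw [nl_top h]
    generalize ∑ i ∈ range D.R, D.ρ i = S
    rw [Finset.mul_sum, Finset.mul_sum]
    apply Finset.sum_congr rfl
    intro y _
    ring
  rw [Finset.sum_congr rfl fun ω _ => h2 ω, ← Finset.mul_sum]
  have h3 := mass_le h x D.R le_rfl
  have h4 : 0 ≤ 2 * (∑ i ∈ range D.R, D.ρ i) := by linarith [rho_nonneg h]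
  refine (mul_le_mul_of_nonneg_left h3 h4).trans ?_
  rw [← mul_div_assoc]
  exact div_le_div_of_nonneg_right h.hB2 (by positivity)

/-- the good event has probability at least a half -/
theorem good_half (x : Fin n) :
    1 / 2 ≤ ∑ ω : D.Om, (∏ z, D.FG x z ω) * (if D.good (D.mm ω) ω x then 1 else 0) := by
  have hsum : ∑ ω : D.Om, ∏ z, D.FG x z ω = 1 :=
    prod_eq (D.FG x) (FG_ad h x) (fun z ω => FG_sum h x z ω)
  have hpt : ∀ ω : D.Om, (∏ z, D.FG x z ω) - (∏ z, D.FG x z ω) *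
      (if D.good (D.mm ω) ω x then 1 else 0) ≤
      ∑ L ∈ range (D.R + 1), ((∏ z, D.FG x z ω) * (∑ t ∈ D.nl (D.mm ω) x L, D.mm ω t)) *
        (1 / D.th L) +
      ((∏ z, D.FG x z ω) * (((D.N x).filter (fun z => D.smp (ω z))).card : ℝ)) * (1 / D.B) := by
    intro ω
    set p := ∏ z, D.FG x z ω with hpdef
    have hp0 : 0 ≤ p := Finset.prod_nonneg fun z _ => FG_nonneg h x z ω
    have hA : ∀ L ∈ range (D.R + 1), 0 ≤ (p * (∑ t ∈ D.nl (D.mm ω) x L, D.mm ω t)) *
        (1 / D.th L) := by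
      intro L _
      apply mul_nonneg (mul_nonneg hp0 (Finset.sum_nonneg fun t _ => mm_nonneg h ω t))
      exact one_div_nonneg.2 (h.hp.th0 L).le
    have hB : 0 ≤ (p * (((D.N x).filter (fun z => D.smp (ω z))).card : ℝ)) * (1 / D.B) := by
      apply mul_nonneg (mul_nonneg hp0 (Nat.cast_nonneg _))
      exact one_div_nonneg.2 h.hB.le
    by_cases hg : D.good (D.mm ω) ω x
    · rw [if_pos hg, mul_one, sub_self]
      exact add_nonneg (Finset.sum_nonneg hA) hB
    · rw [if_neg hg, mul_zero, sub_zero]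
      unfold good at hg
      rw [not_and_or] at hg
      rcases hg with hg | hg
      · push Not at hg
        obtain ⟨L, hL, hL2⟩ := hg
        have h1 := Finset.single_le_sum hA (Finset.mem_range.2 (Nat.lt_succ_of_le hL))
        have h2 : p ≤ (p * (∑ t ∈ D.nl (D.mm ω) x L, D.mm ω t)) * (1 / D.th L) := by
          rw [mul_one_div, le_div_iff₀ (h.hp.th0 L)]
          exact mul_le_mul_of_nonneg_left hL2.le hp0
        linarith
      · push Not at hg
        have h2 : p ≤ (p * (((D.N x).filter (fun z => D.smp (ω z))).card : ℝ)) * (1 / D.B) := by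
          rw [mul_one_div, le_div_iff₀ h.hB]
          exact mul_le_mul_of_nonneg_left hg.le hp0
        have := Finset.sum_nonneg hA
        linarith
  have htot := Finset.sum_le_sum fun ω (_ : ω ∈ (Finset.univ : Finset D.Om)) => hpt ω
  rw [Finset.sum_sub_distrib, hsum, Finset.sum_add_distrib, Finset.sum_comm] at htot
  have h1 : ∑ L ∈ range (D.R + 1), ∑ ω : D.Om,
      ((∏ z, D.FG x z ω) * (∑ t ∈ D.nl (D.mm ω) x L, D.mm ω t)) * (1 / D.th L) ≤ 1 / 8 := by
    calc _ ≤ ∑ L ∈ range (D.R + 1), 1 / (8 * ((D.R : ℝ) + 1)) := by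
          apply Finset.sum_le_sum
          intro L hL
          rw [← Finset.sum_mul]
          have h2 := mass_le h x L (Nat.le_of_lt_succ (Finset.mem_range.1 hL))
          have h3 := h.hp.th0 L
          calc _ ≤ D.th L / (8 * ((D.R : ℝ) + 1)) * (1 / D.th L) :=
                mul_le_mul_of_nonneg_right h2 (one_div_nonneg.2 h3.le)
            _ = _ := by field_simp
      _ = 1 / 8 := by
          rw [Finset.sum_const, Finset.card_range, nsmul_eq_mul]
          push_cast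
          field_simp
  have h2 : ∑ ω : D.Om, ((∏ z, D.FG x z ω) *
      (((D.N x).filter (fun z => D.smp (ω z))).card : ℝ)) * (1 / D.B) ≤ 1 / 8 := by
    rw [← Finset.sum_mul]
    have h3 := smp_all h x
    have h4 := h.hB
    have hR : (1 : ℝ) ≤ (D.R : ℝ) + 1 := by
      have : (0 : ℝ) ≤ D.R := Nat.cast_nonneg _
      linarith
    calc _ ≤ D.B / (8 * ((D.R : ℝ) + 1)) * (1 / D.B) :=
          mul_le_mul_of_nonneg_right h3 (one_div_nonneg.2 h4.le)
      _ = 1 / (8 * ((D.R : ℝ) + 1)) := by field_simp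
      _ ≤ 1 / 8 := by
          apply one_div_le_one_div_of_le (by norm_num)
          linarith
  linarith

/-- the set of included vertices -/
def inc (ω : D.Om) : Finset (Fin n) := Finset.univ.filter (fun x => ω x = some none)

omit h in
theorem mem_inc (ω : D.Om) (x : Fin n) : x ∈ inc ω ↔ ω x = some none := by
  unfold inc
  rw [Finset.mem_filter]
  exact ⟨fun hh => hh.2, fun hh => ⟨Finset.mem_univ _, hh⟩⟩

theorem inc_prob (x : Fin n) : D.K / (2 * D.d) ≤
    ∑ ω : D.Om, (∏ z, D.FF z ω) * (if ω x = some none then 1 else 0) := by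
  rw [tower D.FF (FF_ad h) (fun z ω => FF_sum h z ω) x
    (fun ω => if ω x = some none then 1 else 0) (fun ω ω' hω => by rw [hω x le_rfl])]
  have h1 : ∀ ω : D.Om, ∑ l, D.FF x (update ω x l) *
      (if (update ω x l) x = some none then (1 : ℝ) else 0) = D.mm ω x := by
    intro ω
    simp only [update_self, mul_ite, mul_one, mul_zero]
    rw [Finset.sum_ite_eq' Finset.univ (some none : D.La), if_pos (Finset.mem_univ _), FF_upd h]
    rfl
  rw [Finset.sum_congr rfl fun ω _ => by rw [h1 ω, P_mm h x ω], ← Finset.mul_sum]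
  have h2 := good_half h x
  have hd : (0 : ℝ) < D.d := by exact_mod_cast h.hd
  calc D.K / (2 * D.d) = D.K / D.d * (1 / 2) := by field_simp
    _ ≤ _ := mul_le_mul_of_nonneg_left h2 (K_pos h).le

theorem inc_indep (ω : D.Om) (hω : ∏ z, D.FF z ω ≠ 0) (x : Fin n) (hx : x ∈ inc ω) (y : Fin n)
    (hy : y ∈ D.N x) : y ∉ inc ω := by
  intro hy'
  rw [mem_inc] at hx hy'
  apply hω
  apply Finset.prod_eq_zero (Finset.mem_univ x)
  unfold FF
  rw [hx]
  show D.mm ω x = 0
  rw [mm_eq h]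
  unfold Phi
  have : ∏ z ∈ D.N x, D.phi (D.mm ω) ω x z = 0 := by
    apply Finset.prod_eq_zero hy
    unfold phi
    rw [hy']
    rfl
  rw [this, mul_zero, zero_mul]

/-- the law of the random independent set -/
theorem main : ∃ w : Finset (Fin n) → ℝ, (∀ I, 0 ≤ w I) ∧
      (∀ I, w I ≠ 0 → ∀ x ∈ I, ∀ y ∈ D.N x, y ∉ I) ∧
      (∀ v, D.K / (2 * D.d) ≤
        ∑ I ∈ Finset.univ.filter (fun I : Finset (Fin n) => v ∈ I), w I) ∧
      ∑ I, w I = 1 := by
  refine ⟨fun I => ∑ ω : D.Om, (∏ z, D.FF z ω) * (if inc ω = I then 1 else 0), ?_, ?_, ?_, ?_⟩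
  · intro I
    apply Finset.sum_nonneg
    intro ω _
    apply mul_nonneg (Finset.prod_nonneg fun z _ => FF_nonneg h z ω)
    split_ifs <;> norm_num
  · intro I hI x hx y hy
    obtain ⟨ω, _, hω⟩ := Finset.exists_ne_zero_of_sum_ne_zero hI
    have h1 : ∏ z, D.FF z ω ≠ 0 := left_ne_zero_of_mul hω
    have h2 : inc ω = I := by
      by_contra hcon
      rw [if_neg hcon, mul_zero] at hω
      exact hω rfl
    rw [← h2] at hx ⊢
    exact inc_indep h ω h1 x hx y hy
  · intro v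
    refine (inc_prob h v).trans (le_of_eq ?_)
    rw [Finset.sum_comm]
    apply Finset.sum_congr rfl
    intro ω _
    rw [← Finset.mul_sum]
    congr 1
    rw [Finset.sum_ite_eq]
    simp only [Finset.mem_filter, Finset.mem_univ, true_and, mem_inc]
  · rw [Finset.sum_comm]
    have h1 : ∀ ω : D.Om, ∑ I, (∏ z, D.FF z ω) * (if inc ω = I then (1 : ℝ) else 0) =
        ∏ z, D.FF z ω := by
      intro ω
      rw [← Finset.mul_sum, Finset.sum_ite_eq, if_pos (Finset.mem_univ _), mul_one]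
    rw [Finset.sum_congr rfl fun ω _ => h1 ω]
    exact prod_eq D.FF (FF_ad h) (fun z ω => FF_sum h z ω)

end

end Dat

end Pool.Agent.Q179.DG
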