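import Mathlib
import Pool.Agent.Y415.Frac.P
import Pool.Agent.Q179.DG.D

set_option autoImplicit false

/-!
# Parameters and their growth
-/

open Finset Function

namespace Pool.Agent.Q179.DG

open Pool.Agent.Y415.Frac (mul_exp_le iter_ge iter_mono mul_iter_le)

/-- exponents -/
def pe : ℕ → ℕ
  | 0 => 0
  | (i + 1) => i + 4 + 2 * pe i

theorem pe_mono : Monotone pe := monotone_nat_of_le_succ fun i => by
  show pe i ≤ i + 4 + 2 * pe i
  omega

/-- uniform exponent -/
def PP (R : ℕ) : ℕ := 2 * R + 5 + 2 * pe R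

/-- thresholds -/
noncomputable def tt (A : ℝ) (P : ℕ) (K : ℝ) : ℕ → ℝ
  | 0 => A * K
  | 1 => Real.exp (A * (A * K))
  | (L + 2) => Real.exp (A * tt A P K (L + 1) ^ P)

section

variable {A K : ℝ} {P : ℕ}

theorem tt_basic (hA : 2 ≤ A) (hK : 1 ≤ K) (hP : 1 ≤ P) (L : ℕ) :
    2 ≤ tt A P K L ∧ tt A P K L ≤ tt A P K (L + 1) := by
  have hstep : ∀ t : ℝ, 2 ≤ t → t ≤ Real.exp (A * t ^ P) := by
    intro t ht
    have h1 : t ≤ t ^ P := le_self_pow₀ (by linarith) (by omega)
    have h2 := Real.add_one_le_exp (A * t ^ P)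
    nlinarith
  induction L with
  | zero =>
    have h0 : (2 : ℝ) ≤ A * K := by nlinarith
    refine ⟨h0, ?_⟩
    show A * K ≤ Real.exp (A * (A * K))
    have h2 := Real.add_one_le_exp (A * (A * K))
    nlinarith
  | succ L ih =>
    have h1 : 2 ≤ tt A P K (L + 1) := ih.1.trans ih.2
    exact ⟨h1, hstep _ h1⟩

theorem tt_two (hA : 2 ≤ A) (hK : 1 ≤ K) (hP : 1 ≤ P) (L : ℕ) : 2 ≤ tt A P K L :=
  (tt_basic hA hK hP L).1

theorem tt_mono (hA : 2 ≤ A) (hK : 1 ≤ K) (hP : 1 ≤ P) : Monotone (tt A P K) :=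
  monotone_nat_of_le_succ fun L => (tt_basic hA hK hP L).2

/-- the heaviness thresholds -/
noncomputable def ee (A : ℝ) (P : ℕ) (K : ℝ) (i : ℕ) : ℝ := 1 / tt A P K i ^ pe i

theorem two_pow {t : ℝ} (ht : 2 ≤ t) {a b : ℕ} (h : a + 1 ≤ b) : 2 * t ^ a ≤ t ^ b := by
  calc 2 * t ^ a ≤ t * t ^ a := mul_le_mul_of_nonneg_right ht (by positivity)
    _ = t ^ (a + 1) := by ring
    _ ≤ t ^ b := pow_le_pow_right₀ (by linarith) h

theorem ee_eta (hA : 2 ≤ A) (hK : 1 ≤ K) (hP : 1 ≤ P) (i : ℕ) :
    2 * tt A P K i ^ 2 * tt A P K (i + 1) ^ (i + 1) * ee A P K (i + 1) ≤ ee A P K i ^ 2 := by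
  unfold ee
  set s := tt A P K i with hs
  set t := tt A P K (i + 1) with ht
  have h1 : 2 ≤ s := tt_two hA hK hP i
  have h2 : s ≤ t := tt_mono hA hK hP (Nat.le_succ i)
  have h3 : 2 ≤ t := h1.trans h2
  have e : pe (i + 1) = i + 4 + 2 * pe i := rfl
  rw [e, div_pow, one_pow, mul_one_div, div_le_div_iff₀ (by positivity) (by positivity), one_mul,
    ← pow_mul]
  calc 2 * s ^ 2 * t ^ (i + 1) * s ^ (pe i * 2) = 2 * (s ^ (2 + pe i * 2) * t ^ (i + 1)) := by
        rw [pow_add]; ring
    _ ≤ 2 * (t ^ (2 + pe i * 2) * t ^ (i + 1)) := by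
        apply mul_le_mul_of_nonneg_left _ (by norm_num)
        apply mul_le_mul_of_nonneg_right _ (by positivity)
        exact pow_le_pow_left₀ (by linarith) h2 _
    _ = 2 * t ^ (2 + pe i * 2 + (i + 1)) := by rw [← pow_add]
    _ ≤ t ^ (i + 4 + 2 * pe i) := two_pow h3 (by omega)

theorem UU_le (hA : 2 ≤ A) (hK : 1 ≤ K) (hP : 1 ≤ P) {R : ℕ} (hPR : PP R ≤ P) {i : ℕ}
    (hi : i < R) : UU (tt A P K) (ee A P K) (tt A P K) i ≤ tt A P K (i + 1) ^ P := by
  unfold UU ee
  set s := tt A P K i with hs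
  set t := tt A P K (i + 1) with ht
  have h1 : 2 ≤ s := tt_two hA hK hP i
  have h2 : s ≤ t := tt_mono hA hK hP (Nat.le_succ i)
  have h3 : 2 ≤ t := h1.trans h2
  have h4 : pe i ≤ pe R := pe_mono hi.le
  have h5 : PP R = 2 * R + 5 + 2 * pe R := rfl
  rw [div_div_eq_mul_div, div_one]
  calc 2 * s ^ 2 * t ^ (i + 2) * s ^ pe i = 2 * (s ^ (2 + pe i) * t ^ (i + 2)) := by
        rw [pow_add]; ring
    _ ≤ 2 * (t ^ (2 + pe i) * t ^ (i + 2)) := by
        apply mul_le_mul_of_nonneg_left _ (by norm_num)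
        apply mul_le_mul_of_nonneg_right _ (by positivity)
        exact pow_le_pow_left₀ (by linarith) h2 _
    _ = 2 * t ^ (2 + pe i + (i + 2)) := by rw [← pow_add]
    _ ≤ t ^ P := two_pow h3 (by omega)

theorem ka_le (hA : 2 ≤ A) (hK : 1 ≤ K) (hP : 1 ≤ P) {R : ℕ} (hPR : PP R ≤ P) {i : ℕ}
    (hi : i < R) : ka (tt A P K) (ee A P K) (tt A P K) i ≤ R * tt A P K (i + 1) ^ P := by
  unfold ka ee
  set s := tt A P K i with hs
  set t := tt A P K (i + 1) with ht
  have h1 : 2 ≤ s := tt_two hA hK hP i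
  have h2 : s ≤ t := tt_mono hA hK hP (Nat.le_succ i)
  have h3 : 2 ≤ t := h1.trans h2
  have h4 : pe i ≤ pe R := pe_mono hi.le
  have h5 : PP R = 2 * R + 5 + 2 * pe R := rfl
  have h6 : (i : ℝ) + 1 ≤ R := by exact_mod_cast hi
  have e1 : 2 * s ^ 2 * (t ^ (i + 1) / (1 / s ^ pe i) ^ 2) * (((i : ℝ) + 1) * t ^ (i + 1)) =
      ((i : ℝ) + 1) * (2 * (s ^ (2 + pe i * 2) * t ^ (i + 1 + (i + 1)))) := by
    rw [div_pow, one_pow, div_div_eq_mul_div, div_one, pow_add, pow_add, pow_mul]
    ring
  rw [e1]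
  apply mul_le_mul h6 _ (by positivity) (by positivity)
  calc 2 * (s ^ (2 + pe i * 2) * t ^ (i + 1 + (i + 1)))
      ≤ 2 * (t ^ (2 + pe i * 2) * t ^ (i + 1 + (i + 1))) := by
        apply mul_le_mul_of_nonneg_left _ (by norm_num)
        apply mul_le_mul_of_nonneg_right _ (by positivity)
        exact pow_le_pow_left₀ (by linarith) h2 _
    _ = 2 * t ^ (2 + pe i * 2 + (i + 1 + (i + 1))) := by rw [← pow_add]
    _ ≤ t ^ P := two_pow h3 (by omega)

/-- The large constant. -/
noncomputable def AA (R : ℕ) : ℝ :=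
  8 * ((R : ℝ) + 1) ^ 2 * Real.exp (2 + 5 * R) + 8 * ((R : ℝ) + 1) ^ 2 + 4 + 6 * R + R ^ 2

theorem par (R : ℕ) (hA : AA R ≤ A) (hK : 1 ≤ K) (hP : 1 ≤ P) (hPR : PP R ≤ P) :
    Par R K (tt A P K) (ee A P K) (tt A P K) := by
  have hR0 : (0 : ℝ) ≤ R := Nat.cast_nonneg R
  have hex : (0 : ℝ) ≤ 8 * ((R : ℝ) + 1) ^ 2 * Real.exp (2 + 5 * R) := by positivity
  have hA2 : 2 ≤ A := by
    unfold AA at hA
    have : (0 : ℝ) ≤ 8 * ((R : ℝ) + 1) ^ 2 := by positivity
    have : (0 : ℝ) ≤ (R : ℝ) ^ 2 := by positivity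
    linarith
  have ht2 := tt_two hA2 hK hP
  have htm := tt_mono hA2 hK hP
  have ht0 : tt A P K 0 = A * K := rfl
  have hKt : K ≤ tt A P K 0 := by rw [ht0]; nlinarith
  refine ⟨by linarith, fun L => by linarith [ht2 L], fun i => ?_, ?_, ht2,
    fun i _ => ee_eta hA2 hK hP i, ?_, ?_⟩
  · unfold ee
    have := ht2 i
    positivity
  · unfold ee
    simp [pe]
  · intro i hi
    have hAt : (2 + 4 * (R : ℝ)) ≤ tt A P K 0 := by
      rw [ht0]
      unfold AA at hA
      have : (0 : ℝ) ≤ 8 * ((R : ℝ) + 1) ^ 2 := by positivity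
      have : (0 : ℝ) ≤ (R : ℝ) ^ 2 := by positivity
      nlinarith
    rcases i with _ | i
    · simp only [Nat.zero_sub, Finset.range_zero, Finset.sum_empty, add_zero]
      exact hAt
    rcases i with _ | i
    · simp only [Nat.add_sub_cancel, Finset.range_zero, Finset.sum_empty, add_zero, zero_add,
        Nat.sub_self]
      exact hAt.trans (htm (Nat.zero_le 1))
    · show (2 + 4 * (R : ℝ)) + ∑ j ∈ range (i + 1), ka (tt A P K) (ee A P K) (tt A P K) j ≤
        Real.exp (A * tt A P K (i + 1) ^ P)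
      set t := tt A P K (i + 1) with ht
      have h1 : (1 : ℝ) ≤ t ^ P := one_le_pow₀ (by linarith [ht2 (i + 1)])
      have h2 : ∑ j ∈ range (i + 1), ka (tt A P K) (ee A P K) (tt A P K) j ≤
          R * (R * t ^ P) := by
        calc _ ≤ ∑ j ∈ range (i + 1), (R : ℝ) * t ^ P := by
              apply Finset.sum_le_sum
              intro j hj
              rw [Finset.mem_range] at hj
              refine (ka_le hA2 hK hP hPR (by omega)).trans ?_
              apply mul_le_mul_of_nonneg_left _ hR0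
              apply pow_le_pow_left₀ (by linarith [ht2 (j + 1)])
              exact htm (by omega)
          _ = ((i : ℝ) + 1) * (R * t ^ P) := by
              rw [Finset.sum_const, Finset.card_range, nsmul_eq_mul]
              push_cast
              ring
          _ ≤ _ := by
              apply mul_le_mul_of_nonneg_right _ (by positivity)
              have : i + 1 ≤ R := by omega
              exact_mod_cast this
      have h3 := Real.add_one_le_exp (A * t ^ P)
      have h4 : (2 + 4 * (R : ℝ) + R ^ 2) * t ^ P ≤ A * t ^ P := by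
        apply mul_le_mul_of_nonneg_right _ (by positivity)
        unfold AA at hA
        have : (0 : ℝ) ≤ 8 * ((R : ℝ) + 1) ^ 2 := by positivity
        linarith
      nlinarith
  · intro L hL
    have hLR : (L : ℝ) ≤ R := by exact_mod_cast hL
    -- a common reduction
    have hred : ∀ X : ℝ, (∀ L' ∈ range (L + 1), EE R (tt A P K) (ee A P K) (tt A P K) L' ≤ X) →
        8 * ((R : ℝ) + 1) * ∑ L' ∈ range (L + 1), K *
          Real.exp (EE R (tt A P K) (ee A P K) (tt A P K) L') ≤
        8 * ((R : ℝ) + 1) ^ 2 * K * Real.exp X := by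
      intro X hX
      calc _ ≤ 8 * ((R : ℝ) + 1) * ∑ L' ∈ range (L + 1), K * Real.exp X := by
            apply mul_le_mul_of_nonneg_left _ (by positivity)
            apply Finset.sum_le_sum
            intro L' hL'
            apply mul_le_mul_of_nonneg_left _ (by linarith)
            exact Real.exp_le_exp.2 (hX L' hL')
        _ = 8 * ((R : ℝ) + 1) * (((L : ℝ) + 1) * (K * Real.exp X)) := by
            rw [Finset.sum_const, Finset.card_range, nsmul_eq_mul]
            push_cast
            ring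
        _ ≤ 8 * ((R : ℝ) + 1) * (((R : ℝ) + 1) * (K * Real.exp X)) := by
            apply mul_le_mul_of_nonneg_left _ (by positivity)
            apply mul_le_mul_of_nonneg_right _ (by positivity)
            linarith
        _ = _ := by ring
    have h8 : 8 * ((R : ℝ) + 1) ^ 2 ≤ Real.exp (8 * ((R : ℝ) + 1) ^ 2) := by
      linarith [Real.add_one_le_exp (8 * ((R : ℝ) + 1) ^ 2)]
    have hKe : K ≤ Real.exp K := by linarith [Real.add_one_le_exp K]
    rcases L with _ | L
    · refine (hred (2 + 5 * R) ?_).trans ?_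
      · intro L' hL'
        rw [Finset.mem_range] at hL'
        have : L' = 0 := by omega
        subst this
        unfold EE
        simp only [if_true, Nat.zero_sub, Finset.range_zero, Finset.sum_empty, add_zero]
        linarith
      · rw [ht0]
        have : 8 * ((R : ℝ) + 1) ^ 2 * Real.exp (2 + 5 * R) ≤ A := by
          unfold AA at hA
          have : (0 : ℝ) ≤ 8 * ((R : ℝ) + 1) ^ 2 := by positivity
          have : (0 : ℝ) ≤ (R : ℝ) ^ 2 := by positivity
          linarith
        nlinarith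
    -- the general step
    have hgen : ∀ Y : ℝ, 1 ≤ Y → K ≤ Y → (∀ L' ∈ range (L + 1 + 1),
        EE R (tt A P K) (ee A P K) (tt A P K) L' ≤ (3 + 6 * R) * Y) →
        8 * ((R : ℝ) + 1) * ∑ L' ∈ range (L + 1 + 1), K *
          Real.exp (EE R (tt A P K) (ee A P K) (tt A P K) L') ≤ Real.exp (A * Y) := by
      intro Y hY hKY hX
      refine (hred _ hX).trans ?_
      calc 8 * ((R : ℝ) + 1) ^ 2 * K * Real.exp ((3 + 6 * R) * Y)
          ≤ Real.exp (8 * ((R : ℝ) + 1) ^ 2) * Real.exp K * Real.exp ((3 + 6 * R) * Y) := by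
            apply mul_le_mul_of_nonneg_right _ (Real.exp_pos _).le
            exact mul_le_mul h8 hKe (by linarith) (Real.exp_pos _).le
        _ = Real.exp (8 * ((R : ℝ) + 1) ^ 2 + K + (3 + 6 * R) * Y) := by
            rw [← Real.exp_add, ← Real.exp_add]
        _ ≤ _ := by
            apply Real.exp_le_exp.2
            have h9 : 8 * ((R : ℝ) + 1) ^ 2 * 1 ≤ 8 * ((R : ℝ) + 1) ^ 2 * Y :=
              mul_le_mul_of_nonneg_left hY (by positivity)
            have h10 : (8 * ((R : ℝ) + 1) ^ 2 + 4 + 6 * R) * Y ≤ A * Y := by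
              apply mul_le_mul_of_nonneg_right _ (by linarith)
              unfold AA at hA
              have : (0 : ℝ) ≤ (R : ℝ) ^ 2 := by positivity
              linarith
            linarith
    have hKt' : ∀ j, K ≤ tt A P K j := fun j => hKt.trans (htm (Nat.zero_le j))
    rcases L with _ | L
    · show _ ≤ Real.exp (A * tt A P K 0)
      apply hgen _ (by linarith [ht2 0]) hKt
      intro L' hL'
      rw [Finset.mem_range] at hL'
      have h1 := ht2 0
      unfold EE
      have h2 : ∑ i ∈ range (L' - 1), UU (tt A P K) (ee A P K) (tt A P K) i = 0 := by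
        have : L' - 1 = 0 := by omega
        rw [this, Finset.range_zero, Finset.sum_empty]
      rw [h2]
      split_ifs
      · nlinarith
      · nlinarith
    · show _ ≤ Real.exp (A * tt A P K (L + 1) ^ P)
      have h1 := ht2 (L + 1)
      have hself : tt A P K (L + 1) ≤ tt A P K (L + 1) ^ P :=
        le_self_pow₀ (by linarith) (by omega)
      apply hgen _ (by linarith) ((hKt' (L + 1)).trans hself)
      intro L' hL'
      rw [Finset.mem_range] at hL'
      set t := tt A P K (L + 1) with ht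
      have h2 : ∑ i ∈ range (L' - 1), UU (tt A P K) (ee A P K) (tt A P K) i ≤ R * t ^ P := by
        calc _ ≤ ∑ i ∈ range (L' - 1), t ^ P := by
              apply Finset.sum_le_sum
              intro j hj
              rw [Finset.mem_range] at hj
              refine (UU_le hA2 hK hP hPR (by omega)).trans ?_
              apply pow_le_pow_left₀ (by linarith [ht2 (j + 1)])
              exact htm (by omega)
          _ = ((L' - 1 : ℕ) : ℝ) * t ^ P := by
              rw [Finset.sum_const, Finset.card_range, nsmul_eq_mul]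
          _ ≤ _ := by
              apply mul_le_mul_of_nonneg_right _ (by positivity)
              have : L' - 1 ≤ R := by omega
              exact_mod_cast this
      have h3 : tt A P K 0 ≤ t ^ P := (htm (Nat.zero_le _)).trans hself
      have h4 : (2 + 4 * (R : ℝ)) * tt A P K 0 ≤ (2 + 4 * (R : ℝ)) * t ^ P :=
        mul_le_mul_of_nonneg_left h3 (by positivity)
      have h5 : (1 : ℝ) ≤ t ^ P := by linarith
      unfold EE
      split_ifs
      · nlinarith
      · nlinarith

end

end Pool.Agent.Q179.DG
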