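import Mathlib
import Pool.Agent.Y415.Frac.S
import Pool.Agent.Q179.DG.E2
import Pool.Agent.Q179.DG.F

set_option autoImplicit false

/-!
# The upper bound `d / log^(r-2) d`
-/

open Finset Function
open scoped Classical

namespace Pool.Agent.Q179.DG

open Pool.Agent.Y415.Frac (mul_exp_le iter_ge iter_mono mul_iter_le Cl mem_Cl iter_log graph_order)

theorem tt_growth {A : ℝ} {P : ℕ} (hA : 2 ≤ A) (L : ℕ) : ∃ a : ℝ, 1 ≤ a ∧
    ∀ K : ℝ, 1 ≤ K → ∃ v : ℝ, 1 ≤ v ∧ tt A P K (L + 1) = Real.exp v ∧ v ≤ Real.exp^[L] (a * K) := by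
  induction L with
  | zero =>
    refine ⟨A * A, by nlinarith, ?_⟩
    intro K hK
    have h1 : (1 : ℝ) ≤ A * K := by nlinarith
    refine ⟨A * (A * K), by nlinarith, rfl, ?_⟩
    show A * (A * K) ≤ A * A * K
    linarith
  | succ L ih =>
    obtain ⟨a, ha, h⟩ := ih
    have hP0 : (0 : ℝ) ≤ P := Nat.cast_nonneg P
    refine ⟨(A + P) * a, by nlinarith, ?_⟩
    intro K hK
    obtain ⟨v, hv1, hv2, hv3⟩ := h K hK
    have haK : 1 ≤ a * K := by nlinarith
    refine ⟨A * Real.exp v ^ P, ?_, ?_, ?_⟩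
    · have h1 : (1 : ℝ) ≤ Real.exp v ^ P := one_le_pow₀ (Real.one_le_exp (by linarith))
      nlinarith
    · show Real.exp (A * tt A P K (L + 1) ^ P) = _
      rw [hv2]
    · rw [Function.iterate_succ_apply' Real.exp]
      calc A * Real.exp v ^ P = A * Real.exp (P * v) := by rw [← Real.exp_nat_mul]
        _ ≤ Real.exp (A * v) * Real.exp (P * v) := by
            apply mul_le_mul_of_nonneg_right _ (Real.exp_pos _).le
            have := Real.add_one_le_exp (A * v)
            nlinarith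
        _ = Real.exp ((A + P) * v) := by
            rw [← Real.exp_add]; congr 1; ring
        _ ≤ Real.exp ((A + P) * Real.exp^[L] (a * K)) := by
            apply Real.exp_le_exp.2
            exact mul_le_mul_of_nonneg_left hv3 (by linarith)
        _ ≤ Real.exp (Real.exp^[L] ((A + P) * (a * K))) := by
            apply Real.exp_le_exp.2
            exact mul_iter_le (by linarith) haK L
        _ = _ := by rw [mul_assoc]

theorem threshold {A : ℝ} {P : ℕ} (hA : 2 ≤ A) {Q : ℝ} (hQ : 1 ≤ Q) (L : ℕ) : ∃ K' : ℝ, 1 ≤ K' ∧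
    ∀ K : ℝ, 1 ≤ K → Real.exp (Q * tt A P K (L + 1) ^ 3) ≤ Real.exp^[L + 2] (K' * K) := by
  obtain ⟨a, ha, h⟩ := tt_growth (A := A) (P := P) hA L
  refine ⟨(Q + 3) * a, by nlinarith, ?_⟩
  intro K hK
  obtain ⟨v, hv1, hv2, hv3⟩ := h K hK
  have haK : 1 ≤ a * K := by nlinarith
  have e : ∀ y, Real.exp^[L + 2] y = Real.exp (Real.exp (Real.exp^[L] y)) := fun y =>
    (Function.iterate_succ_apply' Real.exp (L + 1) y).trans
      (congrArg Real.exp (Function.iterate_succ_apply' Real.exp L y))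
  rw [e, hv2]
  apply Real.exp_le_exp.2
  calc Q * Real.exp v ^ 3 = Q * Real.exp (3 * v) := by
        rw [← Real.exp_nat_mul]; norm_num
    _ ≤ Real.exp (Q * v) * Real.exp (3 * v) := by
        apply mul_le_mul_of_nonneg_right _ (Real.exp_pos _).le
        have := Real.add_one_le_exp (Q * v)
        nlinarith
    _ = Real.exp ((Q + 3) * v) := by
        rw [← Real.exp_add]; congr 1; ring
    _ ≤ Real.exp ((Q + 3) * Real.exp^[L] (a * K)) := by
        apply Real.exp_le_exp.2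
        exact mul_le_mul_of_nonneg_left hv3 (by linarith)
    _ ≤ Real.exp (Real.exp^[L] ((Q + 3) * (a * K))) := by
        apply Real.exp_le_exp.2
        exact mul_iter_le (by linarith) haK L
    _ = _ := by rw [mul_assoc]

/-- Explicit threshold for `d`. -/
theorem frac_tight_pos (L : ℕ) : ∃ K' : ℝ, 1 ≤ K' ∧ ∀ C : ℝ, 1 ≤ C → ∀ d : ℕ,
      Real.exp^[L + 2] (K' * C) ≤ d → ∀ (n : ℕ) (N : Fin n → Finset (Fin n))
      (adj : Fin n → Fin n → Prop), (∀ x, ∀ y ∈ N x, y < x) → (∀ x, (N x).card ≤ d) →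
      (∀ z y, y ∈ N z → adj z y ∧ adj y z) →
      (∀ u, ∀ x ∈ N u, Cl adj (L + 1 + 1) (N x ∩ N u) = ∅) →
      ∃ w : Finset (Fin n) → ℝ, (∀ I, 0 ≤ w I) ∧ (∀ I, w I ≠ 0 → ∀ x ∈ I, ∀ y ∈ N x, y ∉ I) ∧
      (∀ v, C / (2 * d) ≤ ∑ I ∈ Finset.univ.filter (fun I : Finset (Fin n) => v ∈ I), w I) ∧
      ∑ I, w I = 1 := by
  set R : ℕ := L + 1 with hR
  set P : ℕ := PP R with hP
  have hP1 : 1 ≤ P := by
    have : PP R = 2 * R + 5 + 2 * pe R := rfl
    omega
  have hR0 : (0 : ℝ) ≤ R := Nat.cast_nonneg R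
  have hP0 : (1 : ℝ) ≤ P := by exact_mod_cast hP1
  set A : ℝ := AA R with hA
  have hA2 : 2 ≤ A := by
    rw [hA]
    unfold AA
    have : (0 : ℝ) ≤ 8 * ((R : ℝ) + 1) ^ 2 * Real.exp (2 + 5 * R) := by positivity
    have : (0 : ℝ) ≤ 8 * ((R : ℝ) + 1) ^ 2 := by positivity
    have : (0 : ℝ) ≤ (R : ℝ) ^ 2 := by positivity
    linarith
  set Q : ℝ := 4 + R + P * (2 * R + 1) with hQ
  have hQ1 : 1 ≤ Q := by
    rw [hQ]
    have : 0 ≤ (P : ℝ) * (2 * R + 1) := by positivity
    linarith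
  obtain ⟨K', hK', hthr⟩ := threshold (A := A) (P := P) hA2 hQ1 L
  refine ⟨K', hK', ?_⟩
  intro C hC d hd n N adj hN hNd hadj hCl
  have hbound : Real.exp (Q * tt A P C R ^ 3) ≤ d := (hthr C hC).trans hd
  have hpar := par (A := A) (K := C) (P := P) R le_rfl hC hP1 le_rfl
  have ht2 := tt_two hA2 hC hP1
  have htm := tt_mono hA2 hC hP1
  set T : ℝ := tt A P C R with hT
  have hT2 : 2 ≤ T := ht2 R
  have hdR : (0 : ℝ) < d := lt_of_lt_of_le (Real.exp_pos _) hbound
  have hd0 : 0 < d := by exact_mod_cast hdR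
  have hsum : ∑ i ∈ range R, tt A P C i ≤ R * T := by
    calc _ ≤ ∑ i ∈ range R, T := Finset.sum_le_sum fun i hi =>
          htm (Finset.mem_range.1 hi).le
      _ = _ := by rw [Finset.sum_const, Finset.card_range, nsmul_eq_mul]
  have hsum0 : 0 ≤ ∑ i ∈ range R, tt A P C i :=
    Finset.sum_nonneg fun i _ => by linarith [ht2 i]
  let D : Dat n :=
    { N := N, adj := adj, ρ := tt A P C, η := ee A P C, th := tt A P C, R := R, K := C, d := d,
      B := (2 * R + 1) * T ^ 2, lam := P * T }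
  have hok : D.Ok := by
    refine ⟨hN, hNd, hadj, hCl, hpar, hd0, ?_, ?_, ?_, ?_, ?_⟩
    · show 0 < (2 * (R : ℝ) + 1) * T ^ 2
      positivity
    · show 2 * (∑ i ∈ range R, tt A P C i) * T ≤ (2 * (R : ℝ) + 1) * T ^ 2
      nlinarith [mul_le_mul_of_nonneg_right hsum (show 0 ≤ T by linarith)]
    · show 2 ≤ Real.exp (P * T)
      have := Real.add_one_le_exp ((P : ℝ) * T)
      nlinarith
    · intro i hi
      have hi' : i < R := hi
      show tt A P C i * tt A P C (i + 1) ^ (i + 1) / ee A P C i ≤ Real.exp (P * T)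
      unfold ee
      have h1 := ht2 i
      have h2 := ht2 (i + 1)
      have h3 : tt A P C i ≤ T := htm hi'.le
      have h4 : tt A P C (i + 1) ≤ T := htm hi'
      have h5 : pe i ≤ pe R := pe_mono hi'.le
      have h6 : PP R = 2 * R + 5 + 2 * pe R := rfl
      rw [div_div_eq_mul_div, div_one]
      calc tt A P C i * tt A P C (i + 1) ^ (i + 1) * tt A P C i ^ pe i
          ≤ T * T ^ (i + 1) * T ^ pe i := by
            apply mul_le_mul
            · apply mul_le_mul h3 _ (by positivity) (by positivity)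
              exact pow_le_pow_left₀ (by linarith) h4 _
            · exact pow_le_pow_left₀ (by linarith) h3 _
            · positivity
            · positivity
        _ = T ^ (1 + (i + 1) + pe i) := by ring
        _ ≤ T ^ P := pow_le_pow_right₀ (by linarith) (by omega)
        _ ≤ Real.exp T ^ P := by
            apply pow_le_pow_left₀ (by linarith)
            linarith [Real.add_one_le_exp T]
        _ = _ := by rw [← Real.exp_nat_mul]
    · show C / d * Real.exp (2 * T + P * T * ((2 * R + 1) * T ^ 2)) *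
        (1 + ∑ i ∈ range R, tt A P C i) ≤ 1 / 2
      have hT3 : T ≤ T ^ 3 := le_self_pow₀ (by linarith) (by norm_num)
      have hCT : C ≤ T := by
        have h1 : tt A P C 0 ≤ T := htm (Nat.zero_le R)
        have h2 : tt A P C 0 = A * C := rfl
        nlinarith
      have e1 : (2 : ℝ) ≤ Real.exp (T ^ 3) := by
        linarith [Real.add_one_le_exp (T ^ 3)]
      have e2 : C ≤ Real.exp (T ^ 3) := by
        linarith [Real.add_one_le_exp (T ^ 3)]
      have e3 : 1 + ∑ i ∈ range R, tt A P C i ≤ Real.exp (R * T ^ 3) := by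
        have h1 := Real.add_one_le_exp ((R : ℝ) * T ^ 3)
        have h2 : (R : ℝ) * T ≤ R * T ^ 3 := mul_le_mul_of_nonneg_left hT3 hR0
        linarith
      have e4 : Real.exp (2 * T + P * T * ((2 * R + 1) * T ^ 2)) ≤
          Real.exp (2 * T ^ 3 + P * (2 * R + 1) * T ^ 3) := by
        apply Real.exp_le_exp.2
        have : P * T * ((2 * R + 1) * T ^ 2) = P * (2 * R + 1) * T ^ 3 := by ring
        rw [this]
        linarith
      have e5 : 2 * C * (1 + ∑ i ∈ range R, tt A P C i) *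
          Real.exp (2 * T + P * T * ((2 * R + 1) * T ^ 2)) ≤ d := by
        refine le_trans ?_ hbound
        calc _ ≤ Real.exp (T ^ 3) * Real.exp (T ^ 3) * Real.exp (R * T ^ 3) *
              Real.exp (2 * T ^ 3 + P * (2 * R + 1) * T ^ 3) := by
              apply mul_le_mul _ e4 (Real.exp_pos _).le (by positivity)
              apply mul_le_mul _ e3 (by linarith) (by positivity)
              exact mul_le_mul e1 e2 (by linarith) (Real.exp_pos _).le
          _ = Real.exp (Q * T ^ 3) := by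
              rw [← Real.exp_add, ← Real.exp_add, ← Real.exp_add, hQ]
              congr 1
              ring
      rw [show C / d * Real.exp (2 * T + P * T * ((2 * R + 1) * T ^ 2)) *
        (1 + ∑ i ∈ range R, tt A P C i) = (2 * C * (1 + ∑ i ∈ range R, tt A P C i) *
          Real.exp (2 * T + P * T * ((2 * R + 1) * T ^ 2))) / (2 * d) by field_simp]
      rw [div_le_iff₀ (by positivity)]
      linarith
  exact Dat.main hok

/-- Explicit threshold for `d`. -/
theorem frac_tight (R : ℕ) : ∃ K : ℝ, 1 ≤ K ∧ ∀ C : ℝ, 1 ≤ C → ∀ d : ℕ,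
      Real.exp^[R + 1] (K * C) ≤ d → ∀ (n : ℕ) (N : Fin n → Finset (Fin n))
      (adj : Fin n → Fin n → Prop), (∀ x, ∀ y ∈ N x, y < x) → (∀ x, (N x).card ≤ d) →
      (∀ z y, y ∈ N z → adj z y ∧ adj y z) →
      (∀ u, ∀ x ∈ N u, Cl adj (R + 1) (N x ∩ N u) = ∅) →
      ∃ w : Finset (Fin n) → ℝ, (∀ I, 0 ≤ w I) ∧ (∀ I, w I ≠ 0 → ∀ x ∈ I, ∀ y ∈ N x, y ∉ I) ∧
      (∀ v, C / (2 * d) ≤ ∑ I ∈ Finset.univ.filter (fun I : Finset (Fin n) => v ∈ I), w I) ∧
      ∑ I, w I = 1 := by
  rcases R with _ | L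
  · exact Pool.Agent.Y415.Frac.frac_explicit 0
  · exact frac_tight_pos L

/-- The tight upper bound. -/
theorem upper (r : ℕ) (hr : 3 ≤ r) : ∃ K : ℝ, 0 < K ∧ ∃ d₀ : ℕ, ∀ d : ℕ, d₀ ≤ d →
      1 ≤ Real.log^[r - 2] (d:ℝ) ∧
      ∀ (n : ℕ) (G : SimpleGraph (Fin n)),
        G.CliqueFree r →
        (∀ S : Finset (Fin n), S.Nonempty →
            ∃ v ∈ S, (S.filter (fun u => G.Adj v u)).card ≤ d) →
        ∃ w : Finset (Fin n) → ℝ,
          (∀ I, 0 ≤ w I) ∧
          (∀ I, w I ≠ 0 → G.IsIndepSet (↑I : Set (Fin n))) ∧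
          (∀ v : Fin n, 1 ≤ ∑ I ∈ Finset.univ.filter (fun I : Finset (Fin n) => v ∈ I), w I) ∧
          (∑ I, w I) ≤ K * (d : ℝ) / Real.log^[r - 2] (d:ℝ) := by
  obtain ⟨R, rfl⟩ : ∃ R, r = R + 3 := ⟨r - 3, by omega⟩
  obtain ⟨K, hK, hmain⟩ := frac_tight R
  refine ⟨2 * K, by linarith, ⌈Real.exp^[R + 1] K⌉₊, ?_⟩
  intro d hd
  have e5 : R + 3 - 2 = R + 1 := by omega
  rw [e5]
  have hd' : Real.exp^[R + 1] K ≤ d := (Nat.le_ceil _).trans (by exact_mod_cast hd)
  obtain ⟨hL, hexp⟩ := iter_log (R + 1) hd'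
  set L : ℝ := Real.log^[R + 1] (d:ℝ) with hLdef
  have hK0 : 0 < K := by linarith
  have hL0 : 0 < L := by linarith
  refine ⟨by linarith, ?_⟩
  intro n G hG hdeg
  have hC1 : 1 ≤ L / K := by rwa [one_le_div hK0]
  have hC0 : 0 < L / K := by positivity
  have hd0 : (0:ℝ) < d := by
    have := iter_ge (x := K) hK (R + 1)
    linarith
  obtain ⟨σ, N, hmem, g1, g2, g3, g4⟩ := graph_order R d n G hG hdeg
  obtain ⟨w, w0, w1, w2, w4⟩ := hmain (L / K) hC1 d (by
    rw [mul_div_cancel₀ L hK0.ne', hexp]) n N _ g1 g2 g3 g4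
  set s : ℝ := 2 * d / (L / K) with hs
  have hs0 : 0 < s := by positivity
  refine ⟨fun I => s * w (σ.finsetCongr I), fun I => mul_nonneg hs0.le (w0 _), ?_, ?_, ?_⟩
  · intro I hI x hx y hy hxy hadj
    have hI' : w (σ.finsetCongr I) ≠ 0 := right_ne_zero_of_mul hI
    have hx' : σ x ∈ σ.finsetCongr I := by simpa using hx
    have hy' : σ y ∈ σ.finsetCongr I := by simpa using hy
    have hne : σ x ≠ σ y := fun h => hxy (σ.injective h)
    rcases lt_or_gt_of_ne hne with h | h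
    · refine w1 _ hI' (σ y) hy' (σ x) ?_ hx'
      rw [hmem]
      simp only [Equiv.symm_apply_apply]
      exact ⟨h, hadj.symm⟩
    · refine w1 _ hI' (σ x) hx' (σ y) ?_ hy'
      rw [hmem]
      simp only [Equiv.symm_apply_apply]
      exact ⟨h, hadj⟩
  · intro v
    rw [← Finset.mul_sum]
    have h := w2 (σ v)
    have e : ∑ I ∈ Finset.univ.filter (fun I : Finset (Fin n) => v ∈ I), w (σ.finsetCongr I) =
        ∑ I ∈ Finset.univ.filter (fun I : Finset (Fin n) => σ v ∈ I), w I := by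
      rw [Finset.sum_filter, Finset.sum_filter,
        ← Equiv.sum_comp σ.finsetCongr (fun I => if σ v ∈ I then w I else 0)]
      apply Finset.sum_congr rfl
      intro I _
      have : σ v ∈ σ.finsetCongr I ↔ v ∈ I := by simp
      simp only [this]
    rw [e]
    calc (1:ℝ) = s * (L / K / (2 * d)) := by rw [hs]; field_simp
      _ ≤ _ := mul_le_mul_of_nonneg_left h hs0.le
  · rw [← Finset.mul_sum, Equiv.sum_comp σ.finsetCongr (fun I => w I), w4, mul_one, hs]
    apply le_of_eq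
    field_simp

end Pool.Agent.Q179.DG
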